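import Pool.Agent.MP_4b405e_nt.H60.Dist

/-! A minimising pair of laws has linear entropy growth under sums of dilates. -/

namespace Pool.Agent.MP_4b405e_nt.H60

open H17 Finset
open scoped Classical

variable {K V ι : Type} [Field K] [AddCommGroup V] [Module K V] [Fintype ι]

/-- Total entropy defect of a pair along the slopes `ρ`. -/
noncomputable def per (ρ : ι → K) (a b : D V) : ℝ :=
  ∑ i, (a + ρ i • b).H - Fintype.card ι * ((a.H + b.H) / 2)

variable (K) in
/-- Ruzsa distance. -/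
noncomputable def dd (a b : D V) : ℝ := (a + (-1 : K) • b).H - (a.H + b.H) / 2

theorem e_nonneg {c : K} (hc : c ≠ 0) (a b : D V) : 0 ≤ (a + c • b).H - (a.H + b.H) / 2 := by
  have h1 := H_le_add a (c • b)
  have h2 := H_le_add (c • b) a
  rw [add_comm, H_smul hc] at h2
  linarith

theorem dd_nonneg (a b : D V) : 0 ≤ dd K a b := e_nonneg (by simp) a b

theorem e_le_per {ρ : ι → K} (hρ : ∀ i, ρ i ≠ 0) (a b : D V) (i : ι) :
    (a + ρ i • b).H - (a.H + b.H) / 2 ≤ per ρ a b := by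
  have h := Finset.single_le_sum (f := fun i => (a + ρ i • b).H - (a.H + b.H) / 2)
    (fun i _ => e_nonneg (hρ i) a b) (Finset.mem_univ i)
  rwa [Finset.sum_sub_distrib, Finset.sum_const, Finset.card_univ, nsmul_eq_mul] at h

theorem per_nonneg {ρ : ι → K} (hρ : ∀ i, ρ i ≠ 0) (a b : D V) : 0 ≤ per ρ a b := by
  have h := Finset.sum_nonneg (s := Finset.univ) fun i _ => e_nonneg (hρ i) a b
  rwa [Finset.sum_sub_distrib, Finset.sum_const, Finset.card_univ, nsmul_eq_mul] at h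

theorem H_scale {c : K} (hc : c ≠ 0) (r : K) (a b : D V) :
    (c • a + r • c • b).H = (a + r • b).H := by
  rw [smul_comm, ← smul_add, H_smul hc]

theorem per_smul (ρ : ι → K) {c : K} (hc : c ≠ 0) (a b : D V) :
    per ρ (c • a) (c • b) = per ρ a b := by
  simp only [per, H_scale hc, H_smul hc]

theorem dd_smul {c : K} (hc : c ≠ 0) (a b : D V) : dd K (c • a) (c • b) = dd K a b := by
  simp only [dd, H_scale hc, H_smul hc]

/-- Near minimisers of `lam * per + distance to (u, v)`. -/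
def IsMin (ρ : ι → K) (lam δ : ℝ) (u v f g : D V) : Prop :=
  ∀ a b, lam * per ρ f g + dd K u f + dd K v g ≤ lam * per ρ a b + dd K u a + dd K v b + δ

theorem exists_min {ρ : ι → K} (hρ : ∀ i, ρ i ≠ 0) {lam δ : ℝ} (hl : 0 ≤ lam) (hδ : 0 < δ)
    (u v : D V) : ∃ f g, IsMin ρ lam δ u v f g := by
  set s : Set ℝ := {x | ∃ a b, x = lam * per ρ a b + dd K u a + dd K v b}
  have hb : BddBelow s := ⟨0, by
    rintro x ⟨a, b, rfl⟩
    have := mul_nonneg hl (per_nonneg hρ a b)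
    have := dd_nonneg (K := K) u a
    have := dd_nonneg (K := K) v b
    linarith⟩
  obtain ⟨x, ⟨f, g, rfl⟩, hx⟩ := Real.lt_sInf_add_pos (s := s) ⟨_, u, v, rfl⟩ hδ
  exact ⟨f, g, fun a b => by linarith [csInf_le hb ⟨a, b, rfl⟩]⟩

theorem IsMin.step {ρ : ι → K} {lam δ : ℝ} (hl : 0 ≤ lam) {u v f g : D V}
    (h : IsMin ρ lam δ u v f g) {c : K} (hc : c ≠ 0) (σ σ' : D V) :
    lam * per ρ (c • f + σ) (c • g + σ') ≤ lam * per ρ σ σ' +
      ((c • f + σ).H - σ.H + ((c • g + σ').H - σ'.H)) / 2 + δ := by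
  obtain ⟨P, φ, P', φ', c1, c1', c3, c3', c2⟩ := fibre (K := K) (c • f) σ (c • g) σ'
  have key : ∀ ω ω', lam * per ρ f g + dd K u f + dd K v g ≤
      lam * per ρ (φ ω) (φ' ω') + dd K (c • u) (φ ω) + dd K (c • v) (φ' ω') + δ := by
    intro ω ω'
    have h1 := h (c⁻¹ • φ ω) (c⁻¹ • φ' ω')
    rwa [per_smul ρ (inv_ne_zero hc), ← dd_smul hc u (c⁻¹ • φ ω), ← dd_smul hc v (c⁻¹ • φ' ω'),
      smul_inv_smul₀ hc, smul_inv_smul₀ hc] at h1
  have h1 := P.E_mono fun ω => P'.E_mono fun ω' => key ω ω'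
  have h2 := Finset.sum_le_sum (s := Finset.univ) fun i _ => c2 (ρ i)
  have h3 := c3 (c • u)
  have h4 := c3' (c • v)
  simp only [per, dd, Sp.E_add, Sp.E_sub, E_lmul, Sp.E_const, E_sum, Sp.E_div, c1, c1',
    H_scale hc, H_smul hc, Finset.sum_add_distrib, Finset.sum_sub_distrib] at h1 h2 h3 h4 ⊢
  have h5 := mul_le_mul_of_nonneg_left h2 hl
  linarith

/-- Sum of independent dilates of `f`. -/
noncomputable def Sm (B : Multiset K) (f : D V) : D V := (B.map (· • f)).sum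

theorem Sm_add (B B' : Multiset K) (f : D V) : Sm (B + B') f = Sm B f + Sm B' f := by
  simp [Sm]

theorem Sm_cons (c : K) (B : Multiset K) (f : D V) : Sm (c ::ₘ B) f = c • f + Sm B f := by
  simp [Sm]

theorem Sm_zero (f : D V) : Sm (0 : Multiset K) f = 0 := by simp [Sm]

theorem Sm_map (c : K) (B : Multiset K) (f : D V) : Sm (B.map (c * ·)) f = c • Sm B f := by
  induction B using Multiset.induction_on with
  | empty => simp [Sm]
  | cons x B ih => rw [Multiset.map_cons, Sm_cons, Sm_cons, ih, smul_add, mul_smul]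

theorem Sm_nsmul (n : ℕ) (B : Multiset K) (f : D V) : Sm (n • B) f = n • Sm B f := by
  induction n with
  | zero => simp [Sm]
  | succ n ih => rw [succ_nsmul, succ_nsmul, Sm_add, ih]

/-- Entropy growth. -/
noncomputable def gr (f g : D V) (B : Multiset K) : ℝ :=
  (Sm B f).H - f.H + ((Sm B g).H - g.H)

theorem IsMin.per_Sm {ρ : ι → K} {lam δ : ℝ} (hl : 0 ≤ lam) {u v f g : D V}
    (h : IsMin ρ lam δ u v f g) {c : K} (hc : c ≠ 0) (B : Multiset K) (hB : ∀ x ∈ B, x ≠ 0) :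
    lam * per ρ (Sm (c ::ₘ B) f) (Sm (c ::ₘ B) g) ≤
      lam * per ρ f g + gr f g (c ::ₘ B) / 2 + Multiset.card B * δ := by
  induction B using Multiset.induction_on with
  | empty => simp [gr, Sm, per_smul ρ hc, H_smul hc]
  | cons x B ih =>
    have h1 := ih fun y hy => hB y (Multiset.mem_cons_of_mem hy)
    have h2 := h.step hl (hB x (Multiset.mem_cons_self _ _)) (Sm (c ::ₘ B) f) (Sm (c ::ₘ B) g)
    rw [Multiset.cons_swap, Multiset.card_cons]
    unfold gr at h1 ⊢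
    rw [Sm_cons x, Sm_cons x]
    push_cast
    linarith

section Grow

variable {ρ : ι → K} {i0 : ι} {f g : D V} {q : ℝ} {M : ℕ}

/-- Multisets of dilation factors reached in `n` steps. -/
def Good (f g : D V) (q : ℝ) (n : ℕ) (B : Multiset K) : Prop :=
  B ≠ 0 ∧ (∀ x ∈ B, x ≠ 0) ∧ Multiset.card B ≤ 2 ^ n ∧ gr f g B ≤ 8 * n * q

/-- The hypothesis of the growth argument. -/
def Hyp (ρ : ι → K) (i0 : ι) (f g : D V) (q : ℝ) (M : ℕ) : Prop :=
  (∀ i, ρ i ≠ 0) ∧ ρ i0 = 1 ∧ 0 ≤ q ∧ ∀ B : Multiset K, B ≠ 0 → (∀ x ∈ B, x ≠ 0) →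
    Multiset.card B ≤ 2 ^ M → 4 * M * per ρ (Sm B f) (Sm B g) ≤ 4 * M * q + gr f g B / 2

theorem Good.step (H : Hyp ρ i0 f g q M) {n : ℕ} {B : Multiset K} (h : Good f g q n B)
    (hn : n < M) (i : ι) : Good f g q (n + 1) (B + B.map (-ρ i * ·)) := by
  obtain ⟨hρ, h0, hq, hp⟩ := H
  obtain ⟨b0, b1, b2, b3⟩ := h
  refine ⟨fun hh => b0 (add_eq_zero.1 hh).1, fun x hx => ?_, ?_, ?_⟩
  · rcases Multiset.mem_add.1 hx with hx | hx
    · exact b1 x hx
    · obtain ⟨y, hy, rfl⟩ := Multiset.mem_map.1 hx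
      exact mul_ne_zero (neg_ne_zero.2 (hρ i)) (b1 y hy)
  · rw [Multiset.card_add, Multiset.card_map, pow_succ]; omega
  have h1 := hp B b0 b1 (b2.trans (Nat.pow_le_pow_right (by norm_num) hn.le))
  have hM : (n : ℝ) + 1 ≤ M := by exact_mod_cast hn
  have hn0 : (0 : ℝ) ≤ n := Nat.cast_nonneg n
  have h2 : per ρ (Sm B f) (Sm B g) ≤ 2 * q := by
    refine le_of_mul_le_mul_left ?_ (show (0 : ℝ) < 4 * M by linarith)
    nlinarith
  have hr := neg_ne_zero.2 (hρ i)
  have e1 := e_le_per hρ (Sm B f) (Sm B g) i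
  have e2 := e_le_per hρ (Sm B f) (Sm B g) i0
  have t1 := tri (K := K) (Sm B f) (-ρ i • Sm B f) (-ρ i • Sm B g)
  have t2 := tri (K := K) (Sm B g) (-ρ i • Sm B g) ((-1 : K) • Sm B f)
  rw [smul_smul, ← smul_add, H_smul hr, H_smul hr, neg_mul_neg, one_mul] at t1
  rw [smul_smul, neg_mul_neg, one_mul, one_smul, H_smul (by simp), ← neg_one_mul (ρ i), mul_smul,
    ← smul_add (-1 : K), H_smul (by simp), add_comm (ρ i • _), add_comm (Sm B g) (Sm B f),
    ← mul_smul, neg_one_mul] at t2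
  rw [h0, one_smul] at e2
  unfold gr at b3 ⊢
  rw [Sm_add, Sm_add, Sm_map, Sm_map]
  push_cast
  linarith

theorem Good.round (H : Hyp ρ i0 f g q M) {n : ℕ} {B : Multiset K} (h : Good f g q n B)
    (l : List ι) (hl : n + l.length ≤ M) : ∃ B', Good f g q (n + l.length) B' ∧
      (∀ x ∈ B, x ∈ B') ∧ ∀ i ∈ l, ∀ x ∈ B, -ρ i * x ∈ B' := by
  induction l with
  | nil => exact ⟨B, h, fun _ hx => hx, by simp⟩
  | cons j l ih =>
    rw [List.length_cons] at hl
    obtain ⟨B', h1, h2, h3⟩ := ih (by omega)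
    refine ⟨_, h1.step H (by omega) j, fun x hx => Multiset.mem_add.2 (Or.inl (h2 x hx)),
      fun i hi x hx => Multiset.mem_add.2 ?_⟩
    rcases List.mem_cons.1 hi with rfl | hi
    · exact Or.inr (Multiset.mem_map_of_mem _ (h2 x hx))
    · exact Or.inl (h3 i hi x hx)

/-- Products of at most `j` factors `-ρ i`. -/
def Wd (ρ : ι → K) (j : ℕ) (x : K) : Prop :=
  ∃ l : List ι, l.length ≤ j ∧ x = (l.map fun i => -ρ i).prod

theorem rounds (H : Hyp ρ i0 f g q M) (j : ℕ) (hj : j * Fintype.card ι ≤ M) :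
    ∃ B : Multiset K, Good f g q (j * Fintype.card ι) B ∧ ∀ x, Wd ρ j x → x ∈ B := by
  induction j with
  | zero =>
    refine ⟨1 ::ₘ 0, ⟨by simp, by simp, by simp, by simp [gr, Sm]⟩, ?_⟩
    rintro x ⟨l, hl, rfl⟩
    rw [List.length_eq_zero_iff.1 (Nat.le_zero.1 hl)]
    simp
  | succ j ih =>
    rw [Nat.succ_mul] at hj ⊢
    obtain ⟨B, h1, h2⟩ := ih (by omega)
    obtain ⟨B', h3, h4, h5⟩ := h1.round H Finset.univ.toList (by simpa using hj)
    refine ⟨B', by simpa using h3, ?_⟩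
    rintro x ⟨l, hl, rfl⟩
    cases l with
    | nil => exact h4 _ (h2 _ ⟨[], by simp, rfl⟩)
    | cons i l =>
      rw [List.map_cons, List.prod_cons]
      exact h5 i (by simp) _ (h2 _ ⟨l, by simpa using hl, rfl⟩)

theorem Good.dbl (H : Hyp ρ i0 f g q M) {n : ℕ} {B : Multiset K} (h : Good f g q n B) (t : ℕ)
    (ht : n + t + 1 ≤ M) : ∃ B', Good f g q (n + t + 1) B' ∧ 2 ^ t • B ≤ B' ∧
      B'.map (-ρ i0 * ·) = B' := by
  induction t with
  | zero =>
    refine ⟨_, h.step H (by omega) i0, by simp, ?_⟩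
    simp [H.2.1, add_comm]
  | succ t ih =>
    obtain ⟨B', h1, h2, h3⟩ := ih (by omega)
    have h4 := h1.step H (by omega) i0
    rw [h3] at h4
    refine ⟨_, h4, ?_, by rw [Multiset.map_add, h3]⟩
    rw [pow_succ, mul_nsmul, two_nsmul]
    exact add_le_add h2 h2

theorem chain (f : D V) (U : Multiset K) (a c : D V) :
    (U.map fun x => inc f x (a + Sm U f + c)).sum ≤ (a + Sm U f).H - a.H := by
  induction U using Multiset.induction_on generalizing c with
  | empty => simp [Sm]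
  | cons x U ih =>
    have h1 := ih (x • f + c)
    have h2 := inc_mono f x (a + Sm U f) (x • f + c)
    rw [Multiset.map_cons, Multiset.sum_cons, Sm_cons,
      show a + (x • f + Sm U f) + c = a + Sm U f + (x • f + c) by abel,
      show a + (x • f + Sm U f) = x • f + (a + Sm U f) by abel]
    rw [show inc f x (a + Sm U f) = (x • f + (a + Sm U f)).H - (a + Sm U f).H from rfl] at h2
    linarith

theorem chan (f t : D V) (U : Multiset K) :
    inc f U.sum (Multiset.card U • t) ≤ (U.map fun x => inc f x t).sum := by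
  induction U using Multiset.induction_on with
  | empty => simp [inc_zero]
  | cons x U ih =>
    rw [Multiset.map_cons, Multiset.sum_cons, Multiset.sum_cons, Multiset.card_cons, succ_nsmul']
    linarith [inc_add f x U.sum t (Multiset.card U • t)]

theorem absorb (f : D V) {B1 B2 B3 U : Multiset K} {n : ℕ} (h2 : n • B1 ≤ B2) (h3 : n • B2 ≤ B3)
    (h1 : 1 ∈ B1) (hU : ∀ x ∈ U, x ∈ B1) (hc : Multiset.card U < n) :
    inc f U.sum (Sm B3 f) ≤ (Sm B2 f).H - f.H := by
  have a1 : 1 ::ₘ U ≤ B2 := by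
    refine le_trans (Multiset.le_iff_count.2 fun x => ?_) h2
    by_cases hx : x ∈ 1 ::ₘ U
    · have : x ∈ B1 := by
        rcases Multiset.mem_cons.1 hx with rfl | hx
        · exact h1
        · exact hU x hx
      have h4 := Multiset.count_le_card x (1 ::ₘ U)
      have h5 := Multiset.one_le_count_iff_mem.2 this
      rw [Multiset.card_cons] at h4
      rw [Multiset.count_nsmul]
      nlinarith
    · rw [Multiset.count_eq_zero_of_notMem hx]; exact Nat.zero_le _
  obtain ⟨C, rfl⟩ := Multiset.le_iff_exists_add.1 a1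
  obtain ⟨C', rfl⟩ := Multiset.le_iff_exists_add.1
    ((nsmul_le_nsmul_left (Multiset.zero_le _) hc.le).trans h3)
  have b1 := chain f U f (Sm C f)
  have b2 := chan f (f + Sm U f + Sm C f) U
  have b3 := inc_mono f U.sum (Multiset.card U • (f + Sm U f + Sm C f)) (Sm C' f)
  have b4 := H_le_add (f + Sm U f) (Sm C f)
  rw [Sm_add, Sm_nsmul, Sm_add, Sm_cons, one_smul]
  linarith

theorem noise (H : Hyp ρ i0 f g q M) {j t : ℕ} (hM : M = j * Fintype.card ι + t + 1 + t + 1) :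
    ∃ T : D V, T.H - f.H ≤ 8 * M * q ∧ ∀ U : Multiset K, (∀ x ∈ U, Wd ρ j x) →
      Multiset.card U < 2 ^ t → inc f U.sum T ≤ 8 * M * q := by
  obtain ⟨B1, g1, w1⟩ := rounds H j (by omega)
  obtain ⟨B2, g2, l2, -⟩ := g1.dbl H t (by omega)
  obtain ⟨B3, g3, l3, -⟩ := g2.dbl H t (by omega)
  have h1 : (1 : K) ∈ B1 := w1 1 ⟨[], by simp, rfl⟩
  have key : ∀ {n : ℕ} {B : Multiset K}, Good f g q n B → n ≤ M → (Sm B f).H - f.H ≤ 8 * M * q := by
    intro n B hB hn
    obtain ⟨b0, b1, -, b3⟩ := hB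
    obtain ⟨c, hc⟩ := Multiset.exists_mem_of_ne_zero b0
    obtain ⟨B', rfl⟩ := Multiset.exists_cons_of_mem hc
    have h2 := H_le_add (c • g) (Sm B' g)
    rw [H_smul (b1 c hc), ← Sm_cons] at h2
    have h3 : (n : ℝ) ≤ M := by exact_mod_cast hn
    have := mul_le_mul_of_nonneg_right h3 H.2.2.1
    unfold gr at b3
    linarith
  exact ⟨Sm B3 f, key g3 (by omega), fun U hU hc =>
    (absorb f l2 l3 h1 (fun x hx => w1 x (hU x hx)) hc).trans (key g2 (by omega))⟩

end Grow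

theorem core {ρ : ι → K} (hρ : ∀ i, ρ i ≠ 0) {i0 : ι} (h0 : ρ i0 = 1) (S : Sp) (X Y : S.Ω → V)
    {P Q : K} (hP : P ≠ 0) (hQ : Q ≠ 0) {j t M : ℕ}
    (hM : M = j * Fintype.card ι + t + 1 + t + 1) {UP UQ : Multiset K}
    (sP : UP.sum = -P) (sQ : UQ.sum = -Q) (wP : ∀ x ∈ UP, Wd ρ j x) (wQ : ∀ x ∈ UQ, Wd ρ j x)
    (cP : Multiset.card UP < 2 ^ t) (cQ : Multiset.card UQ < 2 ^ t) :
    S.H (fun ω => Q • X ω + P • Y ω) ≤
      (S.H X + S.H Y) / 2 + 58 * M * per ρ (mk S X) (mk S Y) := by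
  have hM1 : (1 : ℝ) ≤ M := by exact_mod_cast (by omega : 1 ≤ M)
  set u := mk S X with hu
  set v := mk S Y with hv
  have hE := per_nonneg hρ u v
  have main : ∀ δ : ℝ, 0 < δ → S.H (fun ω => Q • X ω + P • Y ω) ≤
      (S.H X + S.H Y) / 2 + 58 * M * per ρ u v + (2 + 24 * M * (1 + 2 ^ M)) * δ := by
    intro δ hδ
    have hl : (0 : ℝ) ≤ 4 * M := by linarith
    obtain ⟨f, g, hm⟩ := exists_min hρ hl hδ u v
    have hp := per_nonneg hρ f g
    have hδ2 : (0 : ℝ) ≤ 2 ^ M * δ := by positivity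
    have H : Hyp ρ i0 f g (per ρ f g + 2 ^ M * δ) M := ⟨hρ, h0, by linarith, fun B b0 b1 b2 => by
      obtain ⟨c, hc⟩ := Multiset.exists_mem_of_ne_zero b0
      obtain ⟨B', rfl⟩ := Multiset.exists_cons_of_mem hc
      have h1 := hm.per_Sm hl (b1 c hc) B' fun x hx => b1 x (Multiset.mem_cons_of_mem hx)
      rw [Multiset.card_cons] at b2
      have h2 : (Multiset.card B' : ℝ) ≤ 2 ^ M := by exact_mod_cast (by omega)
      have h3 := mul_le_mul_of_nonneg_right h2 hδ.le
      nlinarith⟩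
    obtain ⟨T, hT, hI⟩ := noise H hM
    have i1 := hI UP wP cP
    have i2 := hI UQ wQ cQ
    rw [sP] at i1
    rw [sQ] at i2
    have m1 := hm u v
    have e1 := e_le_per hρ u v i0
    have e2 := e_le_per hρ f g i0
    rw [h0, one_smul] at e1 e2
    have n1 : (-1 : K) ≠ 0 := by simp
    have nn : ∀ a : D V, (-1 : K) • (-1 : K) • a = a := fun a => by simp [smul_smul]
    have t1 := tri (K := K) u ((-1 : K) • u) ((-1 : K) • v)
    have t2 := tri (K := K) v ((-1 : K) • v) ((-1 : K) • u)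
    rw [nn, ← smul_add, H_smul n1, H_smul n1] at t1 t2
    rw [add_comm v u] at t2
    have t3 := tri' (K := K) S (fun ω => Q • X ω) (fun ω => P • Y ω) T
    rw [← mk_smul, ← mk_smul, ← hu, ← hv] at t3
    have t4 := tri (K := K) (Q • u) ((-1 : K) • T) (Q • f)
    rw [H_scale hQ, H_smul hQ, ← H_smul n1 ((-1 : K) • T + Q • f), smul_add, nn, smul_smul,
      neg_one_mul, add_comm T] at t4
    have t5 := tri (K := K) (P • v) T (-P • f)
    rw [smul_smul, neg_mul_neg, one_mul, ← smul_add, H_smul hP, H_smul (neg_ne_zero.2 hP),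
      add_comm T] at t5
    have t6 := tri (K := K) v f g
    have d1 := dd_nonneg (K := K) u f
    have d2 := dd_nonneg (K := K) v g
    have hp2 : per ρ f g ≤ 2 * per ρ u v + δ := by
      refine le_of_mul_le_mul_left ?_ (show (0 : ℝ) < 4 * M by linarith)
      unfold dd at m1 d1 d2
      nlinarith
    have hp3 := mul_le_mul_of_nonneg_left hp2 hl
    have hp4 := mul_nonneg hl hp
    have hE2 := mul_le_mul_of_nonneg_right hM1 hE
    have ex : u.H = S.H X := rfl
    have ey : v.H = S.H Y := rfl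
    unfold dd at m1
    unfold inc at i1 i2
    linarith
  refine le_of_forall_pos_le_add fun ε hε => ?_
  have hC : (0 : ℝ) < 2 + 24 * M * (1 + 2 ^ M) := by positivity
  have := main (ε / _) (div_pos hε hC)
  rwa [mul_div_cancel₀ _ hC.ne'] at this

end Pool.Agent.MP_4b405e_nt.H60
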