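import Pool.Agent.MP_4b405e_nt.H60.Law

/-! The commutative monoid of finitely supported laws under convolution, with dilations. -/

namespace Pool.Agent.MP_4b405e_nt.H60

open H17 Finset
open scoped Classical

/-- Finitely supported laws on `V`, as expectation functionals. -/
def D (V : Type) : Type :=
  {φ : (V → ℝ) → ℝ // ∃ (S : Sp) (X : S.Ω → V), φ = fun f => S.E fun ω => f (X ω)}

variable {K V : Type} [Field K] [AddCommGroup V] [Module K V]

/-- The law of a random variable. -/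
noncomputable def mk {V : Type} (S : Sp) (X : S.Ω → V) : D V := ⟨fun f => S.E fun ω => f (X ω), S, X, rfl⟩

theorem D.rep {V : Type} (a : D V) : ∃ (S : Sp) (X : S.Ω → V), a = mk S X := by
  obtain ⟨φ, S, X, h⟩ := a
  exact ⟨S, X, Subtype.ext h⟩

/-- The one point space. -/
def pt : Sp where
  Ω := Unit
  fin := inferInstance
  p _ := 1
  pos _ := one_pos
  tot := by simp

instance : Zero (D V) := ⟨⟨fun f => f 0, pt, fun _ => 0, funext fun _ => (pt.E_const _).symm⟩⟩

instance : Add (D V) := ⟨fun a b => ⟨fun f => a.1 fun x => b.1 fun y => f (x + y), by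
  obtain ⟨S, X, rfl⟩ := a.rep
  obtain ⟨T, Y, rfl⟩ := b.rep
  exact ⟨prod S T, fun ω => X ω.1 + Y ω.2, funext fun f =>
    (prod_E S T fun ω => f (X ω.1 + Y ω.2)).symm⟩⟩⟩

instance : SMul K (D V) := ⟨fun c a => ⟨fun f => a.1 fun x => f (c • x), by
  obtain ⟨S, X, rfl⟩ := a.rep
  exact ⟨S, fun ω => c • X ω, rfl⟩⟩⟩

theorem add_val (a b : D V) (f : V → ℝ) : (a + b).1 f = a.1 fun x => b.1 fun y => f (x + y) := rfl

theorem smul_val (c : K) (a : D V) (f : V → ℝ) : (c • a).1 f = a.1 fun x => f (c • x) := rfl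

theorem zero_val (f : V → ℝ) : (0 : D V).1 f = f 0 := rfl

theorem mk_val {V : Type} (S : Sp) (X : S.Ω → V) (f : V → ℝ) :
    (mk S X).1 f = S.E fun ω => f (X ω) := rfl

theorem D.ext' {V : Type} {a b : D V} (h : ∀ f, a.1 f = b.1 f) : a = b := Subtype.ext (funext h)

instance : AddCommMonoid (D V) where
  add_assoc a b c := D.ext' fun f => by simp only [add_val, add_assoc]
  zero_add a := D.ext' fun f => by simp only [add_val, zero_val, zero_add]
  add_zero a := D.ext' fun f => by simp only [add_val, zero_val, add_zero]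
  add_comm a b := by
    obtain ⟨S, X, rfl⟩ := a.rep
    obtain ⟨T, Y, rfl⟩ := b.rep
    refine D.ext' fun f => ?_
    simp only [add_val, mk_val]
    rw [Sp.E_comm]
    simp only [add_comm]
  nsmul := nsmulRec

instance : DistribMulAction K (D V) where
  one_smul a := D.ext' fun f => by simp only [smul_val, one_smul]
  mul_smul c d a := D.ext' fun f => by simp only [smul_val, mul_smul]
  smul_zero c := D.ext' fun f => by simp only [smul_val, zero_val, smul_zero]
  smul_add c a b := D.ext' fun f => by simp only [smul_val, add_val, smul_add]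

theorem zero_smul' (a : D V) : (0 : K) • a = 0 := by
  obtain ⟨S, X, rfl⟩ := a.rep
  exact D.ext' fun f => by simp only [smul_val, zero_val, mk_val, zero_smul, Sp.E_const]

/-- Entropy of a law. -/
noncomputable def D.H {V : Type} (a : D V) : ℝ :=
  -a.1 fun x => Real.log (a.1 fun y => ind (y = x))

theorem mk_H {V : Type} (S : Sp) (X : S.Ω → V) : (mk S X).H = S.H X := rfl

theorem mk_add (S T : Sp) (X : S.Ω → V) (Y : T.Ω → V) :
    mk S X + mk T Y = mk (prod S T) fun ω => X ω.1 + Y ω.2 :=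
  D.ext' fun f => (prod_E S T fun ω => f (X ω.1 + Y ω.2)).symm

theorem mk_smul (c : K) (S : Sp) (X : S.Ω → V) : c • mk S X = mk S fun ω => c • X ω := rfl

theorem H_smul {c : K} (hc : c ≠ 0) (a : D V) : (c • a).H = a.H := by
  obtain ⟨S, X, rfl⟩ := a.rep
  exact S.H_congr (fun _ _ h => smul_right_injective V hc h) fun _ _ h => congrArg (c • ·) h

theorem H_le_add (a b : D V) : a.H ≤ (a + b).H := by
  obtain ⟨S, X, rfl⟩ := a.rep
  obtain ⟨T, Y, rfl⟩ := b.rep
  have h1 := H_pair_le (prod S T) (fun ω => X ω.1 + Y ω.2) (fun ω => Y ω.2)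
    (U := fun ω => (X ω.1, Y ω.2)) fun ω ω' h1 h2 =>
      Prod.ext (by rw [h2] at h1; exact add_right_cancel h1) h2
  rw [prod_H, (prod_snd S T).H] at h1
  rw [mk_add, mk_H, mk_H]
  linarith

/-- Ruzsa's triangle inequality, for a dependent pair. -/
theorem tri' (S : Sp) (X Y : S.Ω → V) (t : D V) :
    S.H (fun ω => X ω + Y ω) + t.H ≤ (mk S X + (-1 : K) • t).H + (mk S Y + t).H := by
  obtain ⟨T, Z, rfl⟩ := t.rep
  have h1 := (prod S T).submod (X := fun ω => (X ω.1 + (-1 : K) • Z ω.2, Y ω.1 + Z ω.2))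
    (Y := fun ω => ω.1) (Z := fun ω => X ω.1 + Y ω.1) (U := fun ω => (ω.1, Z ω.2))
    (fun ω ω' h => by
      have a := (Prod.mk.inj h).1
      have b := (Prod.mk.inj h).2
      show X ω.1 + Y ω.1 = X ω'.1 + Y ω'.1
      linear_combination (norm := module) a + b)
    (fun ω ω' h => by simp only [show ω.1 = ω'.1 from h])
    fun ω ω' h h' => Prod.ext h' (by
      have b := (Prod.mk.inj h).2
      rw [show ω.1 = ω'.1 from h'] at b
      exact add_left_cancel b)
  have h2 := H_pair_le (prod S T) (fun ω => X ω.1 + (-1 : K) • Z ω.2) (fun ω => Y ω.1 + Z ω.2)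
    (U := fun ω => (X ω.1 + (-1 : K) • Z ω.2, Y ω.1 + Z ω.2)) fun _ _ a b => Prod.ext a b
  have h3 := prod_H S T (fun ω => ω) Z
  have h4 := (prod_fst S T).H fun ω => ω
  have h5 := (prod_fst S T).H fun ω => X ω + Y ω
  rw [mk_smul, mk_add, mk_add, mk_H, mk_H, mk_H]
  linarith

theorem tri (x y t : D V) : (x + y).H + t.H ≤ (x + (-1 : K) • t).H + (y + t).H := by
  obtain ⟨S, X, rfl⟩ := x.rep
  obtain ⟨T, Y, rfl⟩ := y.rep
  have h := tri' (K := K) (prod S T) (fun ω => X ω.1) (fun ω => Y ω.2) t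
  rw [show mk (prod S T) (fun ω => X ω.1) = mk S X from D.ext' ((prod_fst S T).law X),
    show mk (prod S T) (fun ω => Y ω.2) = mk T Y from D.ext' ((prod_snd S T).law Y)] at h
  rw [mk_add, mk_H]
  exact h

/-- Entropy increment caused by adding `u • f` to the noise `t`. -/
noncomputable def inc (f : D V) (u : K) (t : D V) : ℝ := (u • f + t).H - t.H

/-- The memoryless channel inequality. -/
theorem inc_add (f : D V) (u v : K) (t t' : D V) :
    inc f (u + v) (t + t') ≤ inc f u t + inc f v t' := by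
  obtain ⟨S, X, rfl⟩ := f.rep
  obtain ⟨T, Z, rfl⟩ := t.rep
  obtain ⟨T', Z', rfl⟩ := t'.rep
  have h1 := (prod S (prod T T')).submod
    (X := fun ω => (u • X ω.1 + Z ω.2.1, v • X ω.1 + Z' ω.2.2))
    (Y := fun ω => (ω.1, Z ω.2.1 + Z' ω.2.2))
    (Z := fun ω => (u + v) • X ω.1 + (Z ω.2.1 + Z' ω.2.2))
    (U := fun ω => (ω.1, Z ω.2.1, Z' ω.2.2))
    (fun ω ω' h => by
      have a := (Prod.mk.inj h).1
      have b := (Prod.mk.inj h).2
      simp only [add_smul]
      linear_combination (norm := abel1) a + b)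
    (fun ω ω' h => by simp only [(Prod.mk.inj h).1, (Prod.mk.inj h).2])
    fun ω ω' h h' => by
      have a := (Prod.mk.inj h).1
      have b := (Prod.mk.inj h).2
      have c := (Prod.mk.inj h').1
      rw [c] at a b
      exact Prod.ext c (Prod.ext (add_left_cancel a) (add_left_cancel b))
  have h2 := H_pair_le (prod S (prod T T')) (fun ω => u • X ω.1 + Z ω.2.1)
    (fun ω => v • X ω.1 + Z' ω.2.2)
    (U := fun ω => (u • X ω.1 + Z ω.2.1, v • X ω.1 + Z' ω.2.2)) fun _ _ a b => Prod.ext a b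
  have h3 := prod_H S (prod T T') (fun ω => ω) fun ω => (Z ω.1, Z' ω.2)
  have h4 := prod_H T T' Z Z'
  have h5 := prod_H S (prod T T') (fun ω => ω) fun ω => Z ω.1 + Z' ω.2
  have h6 : mk (prod S (prod T T')) (fun ω => u • X ω.1 + Z ω.2.1) = u • mk S X + mk T Z :=
    D.ext' fun f => by simp only [add_val, smul_val, mk_val, prod_E, Sp.E_const]
  have h7 : mk (prod S (prod T T')) (fun ω => v • X ω.1 + Z' ω.2.2) = v • mk S X + mk T' Z' :=
    D.ext' fun f => by simp only [add_val, smul_val, mk_val, prod_E, Sp.E_const]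
  unfold inc
  rw [← h6, ← h7, mk_smul, mk_add, mk_add]
  simp only [mk_H]
  linarith

theorem inc_zero (f t : D V) : inc f (0 : K) t = 0 := by
  unfold inc; rw [zero_smul', zero_add, sub_self]

theorem inc_mono (f : D V) (u : K) (t t' : D V) : inc f u (t + t') ≤ inc f u t := by
  have h := inc_add f u 0 t t'
  rwa [add_zero, inc_zero, add_zero] at h

/-- Fibres of `a` given `a + σ`. -/
theorem fibre (a σ a' σ' : D V) : ∃ (P : Sp) (φ : P.Ω → D V) (P' : Sp) (φ' : P'.Ω → D V),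
    P.E (fun ω => (φ ω).H) = a.H + σ.H - (a + σ).H ∧
    P'.E (fun ω => (φ' ω).H) = a'.H + σ'.H - (a' + σ').H ∧
    (∀ w : D V, P.E (fun ω => (w + (-1 : K) • φ ω).H) ≤ (w + (-1 : K) • a).H) ∧
    (∀ w : D V, P'.E (fun ω => (w + (-1 : K) • φ' ω).H) ≤ (w + (-1 : K) • a').H) ∧
    ∀ ρ : K, P.E (fun ω => P'.E fun ω' => (φ ω + ρ • φ' ω').H) ≤
      (a + ρ • a').H + (σ + ρ • σ').H - (a + σ + ρ • (a' + σ')).H := by
  obtain ⟨S, X, rfl⟩ := a.rep
  obtain ⟨T, Y, rfl⟩ := σ.rep
  obtain ⟨S', X', rfl⟩ := a'.rep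
  obtain ⟨T', Y', rfl⟩ := σ'.rep
  have c1 : ∀ (S T : Sp) (X : S.Ω → V) (Y : T.Ω → V), (prod S T).E (fun ω0 =>
      (mk (cond (prod S T) (fun ω => X ω.1 + Y ω.2) ω0) fun ω => X ω.1.1).H) =
      (mk S X).H + (mk T Y).H - (mk S X + mk T Y).H := by
    intro S T X Y
    rw [mk_add]
    simp only [mk_H]
    rw [avg_cond (prod S T) (fun ω => X ω.1 + Y ω.2) fun ω => X ω.1, ← prod_H]
    congr 1
    refine Sp.H_congr _ (fun ω ω' h => ?_) fun ω ω' h => ?_
    · have a := (Prod.mk.inj h).1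
      have b := (Prod.mk.inj h).2
      rw [a] at b
      exact Prod.ext a (add_left_cancel b)
    · simp only [(Prod.mk.inj h).1, (Prod.mk.inj h).2]
  have c3 : ∀ (S T : Sp) (X : S.Ω → V) (Y : T.Ω → V) (w : D V), (prod S T).E (fun ω0 =>
      (w + (-1 : K) • mk (cond (prod S T) (fun ω => X ω.1 + Y ω.2) ω0) fun ω => X ω.1.1).H) ≤
      (w + (-1 : K) • mk S X).H := by
    intro S T X Y w
    obtain ⟨R, Z, rfl⟩ := w.rep
    have h := avg_cond1 R (prod S T) (fun ω => X ω.1 + Y ω.2)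
      fun ω => Z ω.1 + (-1 : K) • X ω.2.1
    have h6 : mk (prod R (prod S T)) (fun ω => Z ω.1 + (-1 : K) • X ω.2.1) =
        mk R Z + (-1 : K) • mk S X :=
      D.ext' fun f => by simp only [add_val, smul_val, mk_val, prod_E, Sp.E_const]
    rw [← h6]
    simp only [mk_smul, mk_add, mk_H]
    exact h
  refine ⟨prod S T, fun ω0 => mk (cond (prod S T) (fun ω => X ω.1 + Y ω.2) ω0) fun ω => X ω.1.1,
    prod S' T', fun ω0 => mk (cond (prod S' T') (fun ω => X' ω.1 + Y' ω.2) ω0) fun ω => X' ω.1.1,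
    c1 _ _ _ _, c1 _ _ _ _, c3 _ _ _ _, c3 _ _ _ _, fun ρ => ?_⟩
  have h := avg_cond2 (prod S T) (prod S' T') (fun ω => X ω.1 + Y ω.2)
    (fun ω => X' ω.1 + Y' ω.2) fun ω => X ω.1.1 + ρ • X' ω.2.1
  have h1 := (prod (prod S T) (prod S' T')).submod
    (X := fun ω => (X ω.1.1 + ρ • X' ω.2.1, Y ω.1.2 + ρ • Y' ω.2.2))
    (Y := fun ω => (X ω.1.1 + Y ω.1.2, X' ω.2.1 + Y' ω.2.2))
    (Z := fun ω => X ω.1.1 + Y ω.1.2 + ρ • (X' ω.2.1 + Y' ω.2.2))
    (U := fun ω => (X ω.1.1 + ρ • X' ω.2.1, X ω.1.1 + Y ω.1.2, X' ω.2.1 + Y' ω.2.2))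
    (fun ω ω' h => by
      have a := (Prod.mk.inj h).1
      have b := (Prod.mk.inj h).2
      simp only [smul_add]
      linear_combination (norm := abel1) a + b)
    (fun ω ω' h => by simp only [(Prod.mk.inj h).1, (Prod.mk.inj h).2])
    fun ω ω' h h' => Prod.ext (Prod.mk.inj h).1 h'
  have h2 := H_pair_le (prod (prod S T) (prod S' T')) (fun ω => X ω.1.1 + ρ • X' ω.2.1)
    (fun ω => Y ω.1.2 + ρ • Y' ω.2.2)
    (U := fun ω => (X ω.1.1 + ρ • X' ω.2.1, Y ω.1.2 + ρ • Y' ω.2.2)) fun _ _ a b => Prod.ext a b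
  have h6 : mk (prod (prod S T) (prod S' T')) (fun ω => X ω.1.1 + ρ • X' ω.2.1) =
      mk S X + ρ • mk S' X' :=
    D.ext' fun f => by simp only [add_val, smul_val, mk_val, prod_E, Sp.E_const]
  have h7 : mk (prod (prod S T) (prod S' T')) (fun ω => Y ω.1.2 + ρ • Y' ω.2.2) =
      mk T Y + ρ • mk T' Y' :=
    D.ext' fun f => by simp only [add_val, smul_val, mk_val, prod_E, Sp.E_const]
  rw [← h6, ← h7]
  simp only [mk_smul, mk_add, mk_H]
  linarith

end Pool.Agent.MP_4b405e_nt.H60
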