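import Pool.Agent.MP_4b405e_nt.H17.Ent

/-! Products, conditioning, and the monoid of finitely supported laws on a vector space. -/

namespace Pool.Agent.MP_4b405e_nt.H60

open H17 Finset
open scoped Classical

variable {α β γ δ : Type}

/-- Product of finite probability spaces. -/
noncomputable def prod (S T : Sp) : Sp where
  Ω := S.Ω × T.Ω
  fin := inferInstance
  p x := S.p x.1 * T.p x.2
  pos x := mul_pos (S.pos _) (T.pos _)
  tot := by
    rw [Fintype.sum_prod_type]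
    simp only [← Finset.mul_sum, T.tot, mul_one, S.tot]

theorem prod_E (S T : Sp) (F : S.Ω × T.Ω → ℝ) :
    (prod S T).E F = S.E fun s => T.E fun t => F (s, t) := by
  unfold Sp.E
  refine (Fintype.sum_prod_type (fun x : S.Ω × T.Ω => S.p x.1 * T.p x.2 * F x)).trans ?_
  refine Finset.sum_congr rfl fun s _ => ?_
  rw [Finset.mul_sum]
  exact Finset.sum_congr rfl fun t _ => by ring

theorem E_lmul (S : Sp) (c : ℝ) (f : S.Ω → ℝ) : S.E (fun ω => c * f ω) = c * S.E f := by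
  rw [mul_comm, ← S.E_mul]; exact S.E_congr fun _ => mul_comm _ _

theorem E_sum (S : Sp) {ι : Type} (s : Finset ι) (f : ι → S.Ω → ℝ) :
    S.E (fun ω => ∑ i ∈ s, f i ω) = ∑ i ∈ s, S.E (f i) := by
  unfold Sp.E
  simp only [Finset.mul_sum]
  rw [Finset.sum_comm]

theorem prod_mass (S T : Sp) (X : S.Ω → α) (Y : T.Ω → β) (a : α) (b : β) :
    (prod S T).mass (fun x => (X x.1, Y x.2)) (a, b) = S.mass X a * T.mass Y b := by
  unfold Sp.mass
  rw [prod_E, ← S.E_mul]
  refine S.E_congr fun s => ?_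
  rw [← E_lmul]
  refine T.E_congr fun t => ?_
  rw [← ind_and]
  exact ind_congr Prod.ext_iff

theorem prod_H (S T : Sp) (X : S.Ω → α) (Y : T.Ω → β) :
    (prod S T).H (fun x => (X x.1, Y x.2)) = S.H X + T.H Y := by
  unfold Sp.H
  rw [prod_E, ← neg_add, ← S.E_const (T.E _), ← S.E_add]
  congr 1
  refine S.E_congr fun s => ?_
  rw [← T.E_const (Real.log (S.mass X (X s))), ← T.E_add]
  refine T.E_congr fun t => ?_
  rw [← Real.log_mul (S.mass_pos X s).ne' (T.mass_pos Y t).ne', ← prod_mass]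

theorem prod_fst (S T : Sp) : MP (prod S T) S fun x => x.1 := fun f => by
  rw [prod_E]; exact S.E_congr fun s => T.E_const (f s)

theorem prod_snd (S T : Sp) : MP (prod S T) T fun x => x.2 := fun f => by
  rw [prod_E]; exact S.E_const (T.E f)

theorem H_pair_le (S : Sp) (X : S.Ω → α) (Y : S.Ω → β) {U : S.Ω → γ}
    (hU : ∀ ω ω', X ω = X ω' → Y ω = Y ω' → U ω = U ω') : S.H U ≤ S.H X + S.H Y := by
  have h := S.submod (Z := fun _ => ()) (fun _ _ _ => rfl) (fun _ _ _ => rfl) hU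
  have := S.H_nonneg fun _ => ()
  linarith

/-- The fibre of `Z` through `ω0` with the conditional weights. -/
noncomputable def cond (S : Sp) (Z : S.Ω → γ) (ω0 : S.Ω) : Sp where
  Ω := {ω // Z ω = Z ω0}
  fin := inferInstance
  p ω := S.p ω.1 / S.mass Z (Z ω0)
  pos ω := div_pos (S.pos _) (S.mass_pos Z ω0)
  tot := by
    rw [← Finset.sum_div, div_eq_one_iff_eq (S.mass_pos Z ω0).ne',
      ← Finset.sum_subtype (Finset.univ.filter fun ω => Z ω = Z ω0)
        (p := fun ω => Z ω = Z ω0) (by simp) S.p, Finset.sum_filter]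
    refine Finset.sum_congr rfl fun ω _ => ?_
    dsimp only
    by_cases h : Z ω = Z ω0
    · rw [if_pos h, ind_pos h, mul_one]
    · rw [if_neg h, ind_neg h, mul_zero]

theorem cond_E (S : Sp) (Z : S.Ω → γ) (ω0 : S.Ω) (f : S.Ω → ℝ) :
    (cond S Z ω0).E (fun ω => f ω.1) * S.mass Z (Z ω0) =
      S.E fun ω => ind (Z ω = Z ω0) * f ω := by
  have hm := (S.mass_pos Z ω0).ne'
  have e : (cond S Z ω0).E (fun ω => f ω.1) =
      ∑ ω : {ω // Z ω = Z ω0}, S.p ω.1 / S.mass Z (Z ω0) * f ω.1 := rfl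
  rw [e, ← Finset.sum_subtype (Finset.univ.filter fun ω => Z ω = Z ω0)
    (p := fun ω => Z ω = Z ω0) (by simp) (fun ω => S.p ω / S.mass Z (Z ω0) * f ω),
    Finset.sum_filter, Finset.sum_mul]
  refine Finset.sum_congr rfl fun ω _ => ?_
  dsimp only
  by_cases h : Z ω = Z ω0
  · rw [if_pos h, ind_pos h]; field_simp
  · rw [if_neg h, ind_neg h]; simp

/-- Averaging entropies of conditional laws gives the conditional entropy. -/
theorem avgH (S : Sp) (Z : S.Ω → γ) (W : S.Ω → α) (T : S.Ω → Sp)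
    (W' : ∀ ω0, (T ω0).Ω → α)
    (h : ∀ ω0 (f : α → ℝ), (T ω0).E (fun ω => f (W' ω0 ω)) * S.mass Z (Z ω0) =
      S.E fun ω => ind (Z ω = Z ω0) * f (W ω)) :
    S.E (fun ω0 => (T ω0).H (W' ω0)) = S.H (fun ω => (W ω, Z ω)) - S.H Z := by
  set g : S.Ω → ℝ := fun ω => Real.log (S.mass (fun ω => (W ω, Z ω)) (W ω, Z ω)) -
    Real.log (S.mass Z (Z ω)) with hg
  have key : ∀ ω0, (T ω0).H (W' ω0) =
      -S.E fun ω => ind (Z ω0 = Z ω) / S.mass Z (Z ω) * g ω := by
    intro ω0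
    have hm := S.mass_pos Z ω0
    have m1 : ∀ t, (T ω0).mass (W' ω0) t =
        S.mass (fun ω => (W ω, Z ω)) (t, Z ω0) / S.mass Z (Z ω0) := by
      intro t
      rw [eq_div_iff hm.ne']
      refine (h ω0 fun x => ind (x = t)).trans (S.E_congr fun ω => ?_)
      rw [← ind_and]
      exact ind_congr ⟨fun hh => Prod.ext hh.2 hh.1,
        fun hh => ⟨congrArg Prod.snd hh, congrArg Prod.fst hh⟩⟩
    unfold Sp.H
    congr 1
    refine mul_right_cancel₀ hm.ne' ?_
    rw [h ω0 fun x => Real.log ((T ω0).mass (W' ω0) x), ← S.E_mul]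
    refine S.E_congr fun ω => ?_
    by_cases hz : Z ω = Z ω0
    · rw [ind_pos hz, ind_pos hz.symm, m1, ← hz, Real.log_div
        (S.mass_pos (fun ω => (W ω, Z ω)) ω).ne' (S.mass_pos Z ω).ne']
      have := (S.mass_pos Z ω).ne'
      simp only [hg]
      field_simp
    · rw [ind_neg hz, ind_neg (Ne.symm hz)]; simp
  rw [S.E_congr key]
  have e1 : S.E (fun ω0 => -S.E fun ω => ind (Z ω0 = Z ω) / S.mass Z (Z ω) * g ω) =
      -S.E g := by
    rw [S.E_congr (g := fun ω0 => (S.E fun ω => ind (Z ω0 = Z ω) / S.mass Z (Z ω) * g ω) * -1)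
      fun _ => by ring, S.E_mul, S.E_comm, mul_neg_one]
    congr 1
    refine S.E_congr fun ω => ?_
    rw [S.E_mul, S.E_div]
    change S.mass Z (Z ω) / _ * _ = _
    rw [div_self (S.mass_pos Z ω).ne', one_mul]
  rw [e1, hg, S.E_sub]
  unfold Sp.H
  ring

theorem avg_cond (S : Sp) (Z : S.Ω → γ) (W : S.Ω → α) :
    S.E (fun ω0 => (cond S Z ω0).H fun ω => W ω.1) = S.H (fun ω => (W ω, Z ω)) - S.H Z :=
  avgH S Z W _ _ fun ω0 f => cond_E S Z ω0 fun ω => f (W ω)

theorem avg_cond2 (S T : Sp) (Z : S.Ω → γ) (Z' : T.Ω → δ) (W : S.Ω × T.Ω → α) :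
    S.E (fun s => T.E fun t => (prod (cond S Z s) (cond T Z' t)).H fun ω => W (ω.1.1, ω.2.1)) =
      (prod S T).H (fun ω => (W ω, Z ω.1, Z' ω.2)) - (prod S T).H fun ω => (Z ω.1, Z' ω.2) := by
  rw [← avgH (prod S T) (fun ω => (Z ω.1, Z' ω.2)) W
    (fun x => prod (cond S Z x.1) (cond T Z' x.2)) (fun _ ω => W (ω.1.1, ω.2.1)), prod_E]
  intro x f
  rw [prod_mass, prod_E, prod_E, mul_comm (S.mass _ _), ← mul_assoc, ← Sp.E_mul]
  refine Eq.trans (congrArg (· * _) ((cond S Z x.1).E_congr fun s =>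
    cond_E T Z' x.2 fun t => f (W (s.1, t)))) ?_
  refine (cond_E S Z x.1 fun s => T.E fun t => ind (Z' t = Z' x.2) * f (W (s, t))).trans ?_
  refine S.E_congr fun s => ?_
  rw [← E_lmul]
  refine T.E_congr fun t => ?_
  rw [← mul_assoc, ← ind_and]
  exact congrArg (· * _) (ind_congr ⟨fun h => Prod.ext h.1 h.2, fun h => Prod.mk.inj h⟩)

theorem avg_cond1 (S T : Sp) (Z : T.Ω → γ) (W : S.Ω × T.Ω → α) :
    T.E (fun t => (prod S (cond T Z t)).H fun ω => W (ω.1, ω.2.1)) ≤ (prod S T).H W := by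
  have h := avgH (prod S T) (fun ω => Z ω.2) W
    (fun x => prod S (cond T Z x.2)) (fun _ ω => W (ω.1, ω.2.1)) fun x f => by
      rw [((prod_snd S T).law Z).mass, prod_E, prod_E, ← Sp.E_mul]
      exact S.E_congr fun s => cond_E T Z x.2 fun t => f (W (s, t))
  rw [prod_snd S T fun t => (prod S (cond T Z t)).H fun ω => W (ω.1, ω.2.1)] at h
  have h2 := H_pair_le (prod S T) W (fun ω => Z ω.2) (U := fun ω => (W ω, Z ω.2))
    fun _ _ h1 h2 => Prod.ext h1 h2
  linarith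

theorem avg_glue (S : Sp) (Z : S.Ω → γ) (W : S.Ω × S.Ω → α) :
    S.E (fun s => (prod (cond S Z s) (cond S Z s)).H fun ω => W (ω.1.1, ω.2.1)) ≤
      (glue S S Z Z (Law.refl _ _)).H fun x => W x.1 := by
  have hm := glue_fst (Law.refl S Z)
  have h := avgH (glue S S Z Z (Law.refl _ _)) (fun x => Z x.1.1) (fun x => W x.1)
    (fun x => prod (cond S Z x.1.1) (cond S Z x.1.1)) (fun _ ω => W (ω.1.1, ω.2.1)) fun x f => by
      have hp := (S.mass_pos Z x.1.1).ne'
      rw [(hm.law Z).mass, glue_E (Law.refl S Z) fun s t => ind (Z s = Z x.1.1) * f (W (s, t)),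
        prod_E, cond_E S Z x.1.1 fun s => (cond S Z x.1.1).E fun t => f (W (s, t.1))]
      refine S.E_congr fun s => ?_
      by_cases hs : Z s = Z x.1.1
      · rw [ind_pos hs, one_mul, hs, eq_div_iff hp, cond_E S Z x.1.1 fun t => f (W (s, t))]
        exact S.E_congr fun t => by rw [one_mul]
      · rw [ind_neg hs]
        simp [Sp.E_const]
  rw [hm fun s => (prod (cond S Z s) (cond S Z s)).H fun ω => W (ω.1.1, ω.2.1)] at h
  have h2 := H_pair_le (glue S S Z Z (Law.refl _ _)) (fun x => W x.1) (fun x => Z x.1.1)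
    (U := fun x => (W x.1, Z x.1.1)) fun _ _ h1 h2 => Prod.ext h1 h2
  linarith

end Pool.Agent.MP_4b405e_nt.H60
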