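import Mathlib

/-! Boxes of polynomial values give the lower bound for the sum-difference exponent. -/

namespace Pool.Agent.MP_4b405e_nt.H60.Low

open Finset
open scoped Classical Pointwise

variable {K V : Type} [Field K] [AddCommGroup V] [Module K V]

/-- `X + g X + … + g ^ (j - 1) X`. -/
noncomputable def T (g : K) : ℕ → Finset V → Finset V
  | 0, _ => 0
  | j + 1, X => X + g • T g j X

theorem T_add (g : K) (j : ℕ) (X Y : Finset V) : T g j (X + Y) = T g j X + T g j Y := by
  induction j with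
  | zero => simp [T]
  | succ j ih => simp only [T, ih, smul_add]; abel

theorem T_smul (g : K) (j : ℕ) (c : K) (X : Finset V) : T g j (c • X) = c • T g j X := by
  induction j with
  | zero => simp [T]
  | succ j ih => simp only [T, ih, smul_add, smul_smul, mul_comm]

theorem T_zero (g : K) (j : ℕ) : T g j (0 : Finset V) = 0 := by
  induction j with
  | zero => rfl
  | succ j ih => simp [T, ih]

theorem T_mono (g : K) (j : ℕ) {X Y : Finset V} (h : X ⊆ Y) : T g j X ⊆ T g j Y := by
  induction j with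
  | zero => exact Subset.refl _
  | succ j ih => exact add_subset_add h (smul_finset_subset_smul_finset ih)

theorem zero_mem_T (g : K) (j : ℕ) {X : Finset V} (h : 0 ∈ X) : 0 ∈ T g j X := by
  induction j with
  | zero => exact zero_mem_zero
  | succ j ih => simpa [T] using add_mem_add h (smul_mem_smul_finset (a := g) ih)

theorem T_succ (g : K) (j : ℕ) {X : Finset V} (h : 0 ∈ X) : T g j X ⊆ T g (j + 1) X := by
  induction j with
  | zero => intro x hx; rw [show x = 0 from mem_zero.1 hx]; exact zero_mem_T g 1 h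
  | succ j ih => exact add_subset_add (Subset.refl _) (smul_finset_subset_smul_finset ih)

theorem T_split (g : K) (a b : ℕ) (X : Finset V) :
    T g (a + b) X = T g a X + g ^ a • T g b X := by
  induction a with
  | zero => simp [T]
  | succ a ih =>
    rw [show a + 1 + b = a + b + 1 by ring]
    simp only [T, ih, smul_add, smul_smul, pow_succ', add_assoc]

/-- Iterated `T` along a list of generators. -/
noncomputable def box (L : List K) (j : ℕ) (X : Finset V) : Finset V :=
  L.foldr (fun g Y => T g j Y) X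

theorem box_add (L : List K) (j : ℕ) (X Y : Finset V) :
    box L j (X + Y) = box L j X + box L j Y := by
  induction L with
  | nil => rfl
  | cons g L ih => exact (congrArg (T g j) ih).trans (T_add _ _ _ _)

theorem box_mono (L : List K) (j : ℕ) {X Y : Finset V} (h : X ⊆ Y) : box L j X ⊆ box L j Y := by
  induction L with
  | nil => exact h
  | cons g L ih => exact T_mono g j ih

theorem zero_mem_box (L : List K) (j : ℕ) {X : Finset V} (h : 0 ∈ X) : 0 ∈ box L j X := by
  induction L with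
  | nil => exact h
  | cons g L ih => exact zero_mem_T g j ih

theorem box_succ (L : List K) (j : ℕ) {X : Finset V} (h : 0 ∈ X) :
    box L j X ⊆ box L (j + 1) X := by
  induction L with
  | nil => exact Subset.refl _
  | cons g L ih => exact (T_succ g j (zero_mem_box L j h)).trans (T_mono g _ ih)

theorem smul_box {L : List K} {g : K} (hg : g ∈ L) (j : ℕ) {X : Finset V} (h : 0 ∈ X) :
    g • box L j X ⊆ box L (j + 1) X := by
  induction L with
  | nil => simp at hg
  | cons g' L ih =>
    rcases List.mem_cons.1 hg with rfl | hg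
    · exact (subset_add_right _ (zero_mem_box L j h)).trans (T_mono g (j + 1) (box_succ L j h))
    · exact ((T_smul g' j g _).symm.subset.trans (T_mono g' j (ih hg))).trans
        (T_succ g' j (zero_mem_box L _ h))

theorem sub_box (L : List K) (j : ℕ) {X : Finset V} (h : 0 ∈ X) : X ⊆ box L (j + 1) X := by
  induction L with
  | nil => exact Subset.refl _
  | cons g L ih =>
    refine ih.trans (subset_add_left _ ?_)
    have := smul_mem_smul_finset (a := g) (zero_mem_T g j (zero_mem_box L (j + 1) h))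
    rwa [smul_zero] at this

variable (K) in
/-- `X` lies in a sum of `n` dilates of `Y`. -/
def Cov (n : ℕ) (X Y : Finset V) : Prop :=
  ∃ l : Multiset K, Multiset.card l = n ∧ X ⊆ (l.map (· • Y)).sum

theorem Cov.card {n : ℕ} {X Y : Finset V} (h : Cov K n X Y) : X.card ≤ Y.card ^ n := by
  obtain ⟨l, rfl, h⟩ := h
  refine (card_le_card h).trans ?_
  clear h
  induction l using Multiset.induction_on with
  | empty => simp
  | cons c l ih =>
    rw [Multiset.map_cons, Multiset.sum_cons, Multiset.card_cons, pow_succ']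
    exact card_add_le.trans (Nat.mul_le_mul card_image_le ih)

theorem Cov.T {n : ℕ} {X Y : Finset V} (h : Cov K n X Y) (g : K) (j : ℕ) :
    Cov K (2 * n) (T g (2 * j) X) (T g j Y) := by
  obtain ⟨l, rfl, h⟩ := h
  have e : Low.T g j (l.map (· • Y)).sum = (l.map (· • Low.T g j Y)).sum := by
    clear h
    induction l using Multiset.induction_on with
    | empty => simp [T_zero]
    | cons c l ih => simp only [Multiset.map_cons, Multiset.sum_cons, T_add, T_smul, ih]
  have h1 := (T_mono g j h).trans e.subset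
  refine ⟨l + l.map (g ^ j * ·), by simp [two_mul], ?_⟩
  rw [two_mul, T_split, Multiset.map_add, Multiset.sum_add]
  refine add_subset_add h1 ((smul_finset_subset_smul_finset h1).trans (Eq.subset ?_))
  rw [Multiset.smul_sum, Multiset.map_map, Multiset.map_map]
  simp only [Function.comp, mul_smul]

theorem Cov.box {n : ℕ} {X Y : Finset V} (h : Cov K n X Y) (L : List K) (j : ℕ) :
    Cov K (2 ^ L.length * n) (box L (2 * j) X) (box L j Y) := by
  induction L with
  | nil => simpa [Low.box] using h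
  | cons g L ih =>
    rw [List.length_cons, pow_succ', mul_assoc]
    exact ih.T g j

variable (K) in
/-- Integer multiples of `v` up to `2 ^ j`. -/
noncomputable def I (v : V) (j : ℕ) : Finset V :=
  (Finset.Icc (-2 ^ j : ℤ) (2 ^ j)).image fun n : ℤ => (n : K) • v

theorem mem_I {v x : V} {j : ℕ} : x ∈ I K v j ↔ ∃ n : ℤ, |n| ≤ 2 ^ j ∧ (n : K) • v = x := by
  simp only [I, mem_image, mem_Icc, abs_le]

theorem zero_mem_I (v : V) (j : ℕ) : 0 ∈ I K v j := mem_I.2 ⟨0, by simp, by simp⟩

theorem I_add (v : V) (j : ℕ) : I K v j + I K v j ⊆ I K v (j + 1) := by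
  intro x hx
  obtain ⟨a, ha, b, hb, rfl⟩ := mem_add.1 hx
  obtain ⟨n, hn, rfl⟩ := mem_I.1 ha
  obtain ⟨m, hm, rfl⟩ := mem_I.1 hb
  exact mem_I.2 ⟨n + m, by rw [pow_succ]; linarith [abs_add_le n m], by simp [add_smul]⟩

theorem I_cov (v : V) (j : ℕ) : Cov K 2 (I K v (2 * j)) (I K v j) := by
  refine ⟨{1, 2 ^ j}, rfl, fun x hx => ?_⟩
  obtain ⟨n, hn, rfl⟩ := mem_I.1 hx
  have hp : (0 : ℤ) < 2 ^ j := by positivity
  have h1 := Int.emod_nonneg n hp.ne'
  have h2 := Int.emod_lt_of_pos n hp
  have h3 := Int.emod_add_mul_ediv n (2 ^ j)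
  rw [two_mul, pow_add, abs_le] at hn
  simp only [Multiset.insert_eq_cons, Multiset.map_cons, Multiset.map_singleton,
    Multiset.sum_cons, Multiset.sum_singleton, one_smul]
  refine mem_add.2 ⟨_, mem_I.2 ⟨n % 2 ^ j, abs_le.2 ⟨by linarith, h2.le⟩, rfl⟩, _,
    smul_mem_smul_finset (mem_I.2 ⟨n / 2 ^ j, abs_le.2 ⟨by nlinarith, by nlinarith⟩, rfl⟩), ?_⟩
  rw [smul_smul, ← add_smul]
  congr 1
  exact_mod_cast congrArg (Int.cast : ℤ → K) h3

/-- `x` is the value of an integer polynomial of degree `≤ d` and height `≤ n`, times `v`. -/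
def Rep {k : ℕ} (r : Fin k → K) (v : V) (d : ℕ) (n : ℤ) (x : V) : Prop :=
  ∃ Q : MvPolynomial (Fin k) ℤ, Q.totalDegree ≤ d ∧ (∀ m, |Q.coeff m| ≤ n) ∧
    x = MvPolynomial.aeval r Q • v

section

variable {k : ℕ} {r : Fin k → K} {v : V}

theorem Rep.add {d : ℕ} {n n' : ℤ} {x y : V} (h : Rep r v d n x) (h' : Rep r v d n' y) :
    Rep r v d (n + n') (x + y) := by
  obtain ⟨P, a1, a2, rfl⟩ := h
  obtain ⟨Q, b1, b2, rfl⟩ := h'
  refine ⟨P + Q, (MvPolynomial.totalDegree_add _ _).trans (max_le a1 b1), fun m => ?_, by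
    simp [add_smul]⟩
  rw [MvPolynomial.coeff_add]
  linarith [abs_add_le (P.coeff m) (Q.coeff m), a2 m, b2 m]

theorem Rep.neg {d : ℕ} {n : ℤ} {x : V} (h : Rep r v d n x) : Rep r v d n (-x) := by
  obtain ⟨P, a1, a2, rfl⟩ := h
  exact ⟨-P, by simpa using a1, by simpa using a2, by simp⟩

theorem Rep.mono {d d' : ℕ} {n n' : ℤ} {x : V} (h : Rep r v d n x) (hd : d ≤ d') (hn : n ≤ n') :
    Rep r v d' n' x := by
  obtain ⟨P, a1, a2, rfl⟩ := h
  exact ⟨P, a1.trans hd, fun m => (a2 m).trans hn, rfl⟩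

theorem Rep.mul {d : ℕ} {n : ℤ} {x : V} (h : Rep r v d n x) (i : Fin k) :
    Rep r v (d + 1) n (r i • x) := by
  obtain ⟨P, a1, a2, rfl⟩ := h
  refine ⟨MvPolynomial.X i * P, (MvPolynomial.totalDegree_mul _ _).trans ?_, fun m => ?_, by
    simp [mul_smul]⟩
  · rw [MvPolynomial.totalDegree_X]; omega
  · rw [MvPolynomial.coeff_X_mul']
    split_ifs
    · exact a2 _
    · exact abs_zero.trans_le ((abs_nonneg _).trans (a2 0))

theorem rep_T {d : ℕ} {n : ℤ} {X : Finset V} (h : ∀ x ∈ X, Rep r v d n x) (i : Fin k) (j : ℕ) :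
    ∀ x ∈ T (r i) j X, Rep r v (d + j) (j * n) x := by
  induction j with
  | zero => exact fun x hx => ⟨0, by simp, by simp, by simpa using mem_zero.1 hx⟩
  | succ j ih =>
    intro x hx
    obtain ⟨a, ha, b, hb, rfl⟩ := mem_add.1 hx
    obtain ⟨c, hc, rfl⟩ := mem_smul_finset.1 hb
    exact (((h a ha).mono (by omega) le_rfl).add ((ih c hc).mul i)).mono (by omega)
      (by push_cast; linarith)

theorem rep_box (l : List (Fin k)) (j : ℕ) :
    ∀ x ∈ box (l.map r) j (I K v j), Rep r v (l.length * j) (j ^ l.length * 2 ^ j) x := by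
  induction l with
  | nil =>
    intro x hx
    obtain ⟨n, hn, rfl⟩ := mem_I.1 hx
    refine ⟨MvPolynomial.C n, (MvPolynomial.totalDegree_C n).le.trans (Nat.zero_le _),
      fun m => ?_, by simp⟩
    rw [MvPolynomial.coeff_C]
    split_ifs
    · simpa using hn
    · simp
  | cons i l ih =>
    intro x hx
    refine (rep_T ih i j x hx).mono (by simp [Nat.succ_mul]) (le_of_eq ?_)
    rw [List.length_cons]; ring

end

theorem lower [Nontrivial V] {k D q : ℕ} (hq : 1 ≤ q) (hD : 2 * (k + 1) ^ 2 * q + 1 ≤ D)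
    (r : Fin k → K) (s : K)
    (hs : ¬ ∃ P Q : MvPolynomial (Fin k) ℤ, P.totalDegree ≤ D ∧ Q.totalDegree ≤ D ∧
      (∀ m, |P.coeff m| ≤ 2 ^ D) ∧ (∀ m, |Q.coeff m| ≤ 2 ^ D) ∧ MvPolynomial.aeval r Q ≠ 0 ∧
      s = MvPolynomial.aeval r P / MvPolynomial.aeval r Q) :
    ∃ (G : Finset (V × V)) (N : ℕ), 2 ≤ N ∧ (G.image fun g => g.1).card ≤ N ∧
      (G.image fun g => g.2).card ≤ N ∧ (G.image fun g => g.1 + g.2).card ≤ N ∧
      (∀ i, (G.image fun g => g.1 + r i • g.2).card ≤ N) ∧
      (N : ℝ) ^ (2 - 2 / (q : ℝ)) ≤ (G.image fun g => g.1 + s • g.2).card := by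
  obtain ⟨v, hv⟩ := exists_ne (0 : V)
  set L : List K := (List.finRange k).map r with hL
  set A : ℕ → Finset V := fun j => box L j (I K v j) with hA
  have hq' : (1 : ℝ) ≤ q := by exact_mod_cast hq
  have two : ∀ j, 1 ≤ j → 2 ≤ (A j).card := fun j hj => by
    obtain ⟨j, rfl⟩ := Nat.exists_eq_add_of_le' hj
    refine one_lt_card.2 ⟨0, zero_mem_box _ _ (zero_mem_I v _), v,
      sub_box L j (zero_mem_I v _) (mem_I.2 ⟨1, ?_, by simp⟩), hv.symm⟩
    exact abs_one.trans_le (one_le_pow₀ one_le_two)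
  have lpos : ∀ j, 1 ≤ j → 0 < Real.log (A j).card := fun j hj =>
    Real.log_pos (by exact_mod_cast two j hj)
  set J := q * (k + 1) with hJ
  have hJ1 : 1 ≤ J := Nat.mul_pos hq (Nat.succ_pos k)
  have dbl : Real.log (A (2 * J)).card ≤ 2 ^ (k + 1) * Real.log (A J).card := by
    have h := ((I_cov (K := K) v J).box L J).card
    rw [hL, List.length_map, List.length_finRange, ← pow_succ] at h
    have h2 := two (2 * J) (by omega)
    refine (Real.log_le_log (by exact_mod_cast (by omega : 0 < (A (2 * J)).card))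
      (show ((A (2 * J)).card : ℝ) ≤ ((A J).card : ℝ) ^ 2 ^ (k + 1) by exact_mod_cast h)).trans ?_
    rw [Real.log_pow]; push_cast; exact le_rfl
  obtain ⟨j, hj1, hj2, hj⟩ : ∃ j, J ≤ j ∧ j < 2 * J ∧
      Real.log (A (j + 1)).card ≤ (1 + 1 / q) * Real.log (A j).card := by
    by_contra hh
    push Not at hh
    have hp : (0 : ℝ) < 1 + 1 / q := by positivity
    have key : ∀ i, i + 1 ≤ J →
        (1 + 1 / q) ^ (i + 1) * Real.log (A J).card < Real.log (A (J + i + 1)).card := by
      intro i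
      induction i with
      | zero => intro _; simpa using hh J le_rfl (by omega)
      | succ i ih =>
        intro hi
        have h1 := mul_lt_mul_of_pos_left (ih (by omega)) hp
        have h2 := hh (J + i + 1) (by omega) (by omega)
        rw [pow_succ' _ (i + 1), mul_assoc]
        exact h1.trans h2
    have h1 := key (J - 1) (by omega)
    rw [show J + (J - 1) + 1 = 2 * J by omega, show J - 1 + 1 = J by omega] at h1
    have h2 : (2 : ℝ) ≤ (1 + 1 / q) ^ q := by
      have := one_add_mul_le_pow (a := 1 / (q : ℝ)) (by linarith [one_div_nonneg.2 (by linarith : (0 : ℝ) ≤ q)]) q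
      rw [mul_one_div_cancel (by linarith)] at this
      linarith
    have h3 : (2 : ℝ) ^ (k + 1) ≤ (1 + 1 / q) ^ J := by
      rw [hJ, pow_mul]; exact pow_le_pow_left₀ zero_le_two h2 _
    linarith [mul_le_mul_of_nonneg_right h3 (lpos J hJ1).le]
  have z := zero_mem_I (K := K) v j
  have s1 : ∀ B : Finset V, B ⊆ box L (j + 1) (I K v j) → A j + B ⊆ A (j + 1) := fun B hB =>
    (add_subset_add (box_succ L j z) hB).trans
      ((box_add L _ _ _).symm.subset.trans (box_mono L _ (I_add v j)))
  have s2 : A j ⊆ A (j + 1) := (subset_add_left _ (zero_mem_box L j z)).trans (s1 _ (box_succ L j z))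
  have im : ∀ π : V × V → V, (∀ x ∈ A j, ∀ y ∈ A j, π (x, y) ∈ A (j + 1)) →
      ((A j ×ˢ A j).image π).card ≤ (A (j + 1)).card := fun π h =>
    card_le_card (image_subset_iff.2 fun g hg => h _ (mem_product.1 hg).1 _ (mem_product.1 hg).2)
  refine ⟨A j ×ˢ A j, (A (j + 1)).card, two _ (by omega), im _ fun x hx _ _ => s2 hx,
    im _ fun _ _ y hy => s2 hy, im _ fun x hx y hy => s1 _ (box_succ L j z) (add_mem_add hx hy),
    fun i => im _ fun x hx y hy => s1 _ (smul_box (List.mem_map_of_mem (List.mem_finRange i)) j z)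
      (add_mem_add hx (smul_mem_smul_finset hy)), ?_⟩
  have rp : ∀ x ∈ A j, ∀ y ∈ A j, Rep r v D (2 ^ D) (x - y) := fun x hx y hy => by
    have h := (rep_box _ j x hx).add (rep_box _ j y hy).neg
    rw [List.length_finRange, ← sub_eq_add_neg] at h
    have e : (k + 1) * j + 1 ≤ D := by nlinarith
    refine h.mono (by nlinarith) ?_
    have h1 : (j : ℤ) ^ k ≤ (2 ^ j) ^ k :=
      pow_le_pow_left₀ (Int.natCast_nonneg j) (by exact_mod_cast Nat.lt_two_pow_self.le) k
    calc (j : ℤ) ^ k * 2 ^ j + j ^ k * 2 ^ j ≤ (2 ^ j) ^ k * 2 ^ j + (2 ^ j) ^ k * 2 ^ j := by gcongr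
      _ = 2 ^ ((k + 1) * j + 1) := by ring
      _ ≤ 2 ^ D := pow_le_pow_right₀ one_le_two e
  rw [card_image_of_injOn, card_product]
  · have h1 := lpos j (by omega)
    have h2 := lpos (j + 1) (by omega)
    have h3 : (0 : ℝ) < (A j).card := by exact_mod_cast (by linarith [two j (by omega)] : 0 < (A j).card)
    have h4 : (0 : ℝ) < (A (j + 1)).card := by
      exact_mod_cast (by linarith [two (j + 1) (by omega)] : 0 < (A (j + 1)).card)
    push_cast
    rw [Real.rpow_le_iff_le_log h4 (by positivity), Real.log_mul h3.ne' h3.ne']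
    have h5 : 1 / (q : ℝ) ≤ 1 := (div_le_one (by linarith)).2 hq'
    have h6 : (0 : ℝ) ≤ 1 / q := by positivity
    rw [show (2 : ℝ) / q = 2 * (1 / q) by ring]
    nlinarith [mul_le_mul_of_nonneg_left hj (show (0 : ℝ) ≤ 2 - 2 * (1 / q) by linarith),
      mul_nonneg (mul_nonneg h6 h6) h1.le]
  · rintro ⟨x, y⟩ hg ⟨x', y'⟩ hg' h
    have g1 := mem_product.1 (mem_coe.1 hg)
    have g2 := mem_product.1 (mem_coe.1 hg')
    obtain ⟨P, a1, a2, a3⟩ := rp x' g2.1 x g1.1
    obtain ⟨Q, b1, b2, b3⟩ := rp y g1.2 y' g2.2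
    have hQ : MvPolynomial.aeval r Q = 0 := by
      by_contra hQ
      refine hs ⟨P, Q, a1, b1, a2, b2, hQ, (eq_div_iff hQ).2 (smul_left_injective K hv ?_)⟩
      simp only [mul_smul, ← a3, ← b3]
      linear_combination (norm := module) h
    rw [hQ, zero_smul, sub_eq_zero] at b3
    subst b3
    exact Prod.ext (add_right_cancel h) rfl

end Pool.Agent.MP_4b405e_nt.H60.Low
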