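import Pool.Agent.MP_4b405e_nt.H60.Core

/-! From a dependent pair to conditionally independent ends of a path, and the upper bound. -/

namespace Pool.Agent.MP_4b405e_nt.H60

open H17 Finset
open scoped Classical

variable {K V ι : Type} [Field K] [AddCommGroup V] [Module K V] [Fintype ι]

theorem path_sum {c : K} (hc : c ≠ 0) (S : Sp) (X Y : S.Ω → V) {b : ℝ} (hX : S.H X ≤ b)
    (hY : S.H Y ≤ b) (hb : S.H (fun ω => X ω + c • Y ω) ≤ b) :
    (glue (glue S S X X (Law.refl _ _)) (glue S S X X (Law.refl _ _)) (fun x => Y x.1.1)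
      (fun x => Y x.1.1) (Law.refl _ _)).H (fun x => X x.1.1.1.2 + c • Y x.1.2.1.2) ≤
      7 * b - 3 * S.H fun ω => (X ω, Y ω) := by
  set P := glue S S X X (Law.refl _ _) with hP
  have p1 : MP P S fun x => x.1.1 := glue_fst _
  have p2 : MP P S fun x => x.1.2 := glue_snd _
  set Q := glue P P (fun x => Y x.1.1) (fun x => Y x.1.1) (Law.refl _ _) with hQ
  have q1 : MP Q P fun x => x.1.1 := glue_fst _
  have q2 : MP Q P fun x => x.1.2 := glue_snd _
  have c1 : P.H (fun x => ((X x.1.1, Y x.1.1), (X x.1.2, Y x.1.2))) + S.H X =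
      S.H (fun ω => (X ω, Y ω)) + S.H fun ω => (X ω, Y ω) :=
    glue_ci (Law.refl S X) (X := fun ω => (X ω, Y ω)) (Y := fun ω => (X ω, Y ω))
      (fun _ _ h => (Prod.mk.inj h).1) fun _ _ h => (Prod.mk.inj h).1
  have c2 : Q.H (fun x => ((X x.1.1.1.1, Y x.1.1.1.1),
      ((X x.1.2.1.1, Y x.1.2.1.1), (X x.1.2.1.2, Y x.1.2.1.2)))) + P.H (fun x => Y x.1.1) =
      P.H (fun x => (X x.1.1, Y x.1.1)) +
        P.H fun x => ((X x.1.1, Y x.1.1), (X x.1.2, Y x.1.2)) :=
    glue_ci (Law.refl P fun x => Y x.1.1) (X := fun x => (X x.1.1, Y x.1.1))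
      (Y := fun x => ((X x.1.1, Y x.1.1), (X x.1.2, Y x.1.2)))
      (fun _ _ h => (Prod.mk.inj h).2) fun _ _ h => (Prod.mk.inj (Prod.mk.inj h).1).2
  rw [p1.H Y, p1.H fun ω => (X ω, Y ω)] at c2
  have h1 := Q.submod
    (X := fun x => (X x.1.1.1.1 + c • Y x.1.1.1.1, X x.1.2.1.1 + c • Y x.1.2.1.1,
      X x.1.2.1.2 + c • Y x.1.2.1.2))
    (Y := fun x => (X x.1.1.1.2, Y x.1.2.1.2)) (Z := fun x => X x.1.1.1.2 + c • Y x.1.2.1.2)
    (U := fun x => ((X x.1.1.1.1, Y x.1.1.1.1),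
      ((X x.1.2.1.1, Y x.1.2.1.1), (X x.1.2.1.2, Y x.1.2.1.2))))
    (fun x y h => by
      have a1 := (Prod.mk.inj h).1
      have a2 := (Prod.mk.inj (Prod.mk.inj h).2).1
      have a3 := (Prod.mk.inj (Prod.mk.inj h).2).2
      have x1 : X x.1.1.1.1 = X x.1.1.1.2 := x.1.1.2
      have x2 : X x.1.2.1.1 = X x.1.2.1.2 := x.1.2.2
      have x3 : Y x.1.1.1.1 = Y x.1.2.1.1 := x.2
      have y1 : X y.1.1.1.1 = X y.1.1.1.2 := y.1.1.2
      have y2 : X y.1.2.1.1 = X y.1.2.1.2 := y.1.2.2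
      have y3 : Y y.1.1.1.1 = Y y.1.2.1.1 := y.2
      rw [x1, x3, y1, y3] at a1
      rw [x2, y2] at a2
      show X x.1.1.1.2 + c • Y x.1.2.1.2 = X y.1.1.1.2 + c • Y y.1.2.1.2
      linear_combination (norm := module) a1 - a2 + a3)
    (fun x y h => by simp only [(Prod.mk.inj h).1, (Prod.mk.inj h).2])
    fun x y h h' => by
      have a1 := (Prod.mk.inj h).1
      have a2 := (Prod.mk.inj (Prod.mk.inj h).2).1
      have b1 := (Prod.mk.inj h').1
      have b2 := (Prod.mk.inj h').2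
      have x1 : X x.1.1.1.1 = X x.1.1.1.2 := x.1.1.2
      have x2 : X x.1.2.1.1 = X x.1.2.1.2 := x.1.2.2
      have x3 : Y x.1.1.1.1 = Y x.1.2.1.1 := x.2
      have y1 : X y.1.1.1.1 = X y.1.1.1.2 := y.1.1.2
      have y2 : X y.1.2.1.1 = X y.1.2.1.2 := y.1.2.2
      have y3 : Y y.1.1.1.1 = Y y.1.2.1.1 := y.2
      have e1 : X x.1.1.1.1 = X y.1.1.1.1 := x1.trans (b1.trans y1.symm)
      rw [e1] at a1
      have e2 : Y x.1.1.1.1 = Y y.1.1.1.1 := smul_right_injective V hc (add_left_cancel a1)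
      have e3 : Y x.1.2.1.1 = Y y.1.2.1.1 := x3.symm.trans (e2.trans y3)
      rw [e3] at a2
      have e4 := add_right_cancel a2
      exact Prod.ext (Prod.ext e1 e2) (Prod.ext (Prod.ext e4 e3)
        (Prod.ext (x2.symm.trans (e4.trans y2)) b2))
  have h2 := H_pair_le Q (fun x => X x.1.1.1.1 + c • Y x.1.1.1.1)
    (fun x => (X x.1.2.1.1 + c • Y x.1.2.1.1, X x.1.2.1.2 + c • Y x.1.2.1.2))
    (U := fun x => (X x.1.1.1.1 + c • Y x.1.1.1.1, X x.1.2.1.1 + c • Y x.1.2.1.1,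
      X x.1.2.1.2 + c • Y x.1.2.1.2)) fun _ _ a b => Prod.ext a b
  have h3 := H_pair_le Q (fun x => X x.1.2.1.1 + c • Y x.1.2.1.1)
    (fun x => X x.1.2.1.2 + c • Y x.1.2.1.2)
    (U := fun x => (X x.1.2.1.1 + c • Y x.1.2.1.1, X x.1.2.1.2 + c • Y x.1.2.1.2))
    fun _ _ a b => Prod.ext a b
  have h4 := H_pair_le Q (fun x => X x.1.1.1.2) (fun x => Y x.1.2.1.2)
    (U := fun x => (X x.1.1.1.2, Y x.1.2.1.2)) fun _ _ a b => Prod.ext a b
  have h5 := (q1.comp p1).H fun ω => X ω + c • Y ω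
  have h6 := (q2.comp p1).H fun ω => X ω + c • Y ω
  have h7 := (q2.comp p2).H fun ω => X ω + c • Y ω
  have h8 := (q1.comp p2).H X
  have h9 := (q2.comp p2).H Y
  linarith

theorem path {ρ : ι → K} (hρ : ∀ i, ρ i ≠ 0) {s : K} {C : ℝ} (hC : 0 ≤ C)
    (hcore : ∀ (S : Sp) (X Y : S.Ω → V), S.H (fun ω => X ω + s • Y ω) ≤
      (S.H X + S.H Y) / 2 + C * per ρ (mk S X) (mk S Y))
    (S : Sp) (X Y : S.Ω → V) (hinj : Det (fun ω => X ω + s • Y ω) fun ω => (X ω, Y ω)) {b : ℝ}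
    (hX : S.H X ≤ b) (hY : S.H Y ≤ b) (hb : ∀ i, S.H (fun ω => X ω + ρ i • Y ω) ≤ b) :
    b ≤ (4 * C * Fintype.card ι + 2) * (2 * b - S.H fun ω => (X ω, Y ω)) := by
  set P := glue S S X X (Law.refl _ _) with hP
  have p1 : MP P S fun x => x.1.1 := glue_fst _
  have p2 : MP P S fun x => x.1.2 := glue_snd _
  have c1 : P.H (fun x => ((X x.1.1, Y x.1.1), (X x.1.2, Y x.1.2))) + S.H X =
      S.H (fun ω => (X ω, Y ω)) + S.H fun ω => (X ω, Y ω) :=
    glue_ci (Law.refl S X) (X := fun ω => (X ω, Y ω)) (Y := fun ω => (X ω, Y ω))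
      (fun _ _ h => (Prod.mk.inj h).1) fun _ _ h => (Prod.mk.inj h).1
  have h1 := P.E_mono fun x0 => hcore (cond P (fun x => Y x.1.1) x0) (fun ω => X ω.1.1.2)
    fun ω => Y ω.1.1.2
  have a1 := avg_cond P (fun x => Y x.1.1) fun x => X x.1.2 + s • Y x.1.2
  have a2 := avg_cond P (fun x => Y x.1.1) fun x => X x.1.2
  have a3 := avg_cond P (fun x => Y x.1.1) fun x => Y x.1.2
  have a4 := Finset.sum_le_sum (s := Finset.univ) fun i _ =>
    (avg_glue P (fun x => Y x.1.1) fun ω => X ω.1.1.2 + ρ i • Y ω.2.1.2).trans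
      (path_sum (hρ i) S X Y hX hY (hb i))
  have w1 := p1.H Y
  have w2 := p2.H Y
  have w3 := p1.H fun ω => (X ω, Y ω)
  have b1 : P.H (fun x => ((X x.1.1, Y x.1.1), (X x.1.2, Y x.1.2))) ≤
      P.H fun x => (X x.1.2 + s • Y x.1.2, Y x.1.1) := P.H_mono fun x y h => by
    have e := hinj _ _ (Prod.mk.inj h).1
    have x1 : X x.1.1 = X x.1.2 := x.2
    have y1 : X y.1.1 = X y.1.2 := y.2
    exact Prod.ext (Prod.ext (x1.trans ((Prod.mk.inj e).1.trans y1.symm)) (Prod.mk.inj h).2) e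
  have b2 : P.H (fun x => (X x.1.2, Y x.1.1)) = P.H fun x => (X x.1.1, Y x.1.1) :=
    congrArg P.H (funext fun x => Prod.ext (show X x.1.1 = X x.1.2 from x.2).symm rfl)
  have b3 := P.submod (X := fun x => (Y x.1.2, Y x.1.1)) (Y := fun x => (X x.1.2, Y x.1.1))
    (Z := fun x => Y x.1.1) (U := fun x => ((X x.1.1, Y x.1.1), (X x.1.2, Y x.1.2)))
    (fun _ _ h => (Prod.mk.inj h).2) (fun _ _ h => (Prod.mk.inj h).2) fun x y h h' => by
      have x1 : X x.1.1 = X x.1.2 := x.2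
      have y1 : X y.1.1 = X y.1.2 := y.2
      exact Prod.ext (Prod.ext (x1.trans ((Prod.mk.inj h').1.trans y1.symm)) (Prod.mk.inj h).2)
        (Prod.ext (Prod.mk.inj h').1 (Prod.mk.inj h).1)
  have b4 := H_pair_le P (fun x => Y x.1.2) (fun x => Y x.1.1)
    (U := fun x => (Y x.1.2, Y x.1.1)) fun _ _ a b => Prod.ext a b
  have b5 := H_pair_le S X Y (U := fun ω => (X ω, Y ω)) fun _ _ a b => Prod.ext a b
  simp only [per, mk_smul, mk_add, mk_H, Sp.E_add, Sp.E_sub, E_lmul, E_sum, Sp.E_div] at h1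
  rw [Finset.sum_const, Finset.card_univ, nsmul_eq_mul] at a4
  rw [a1, a2, a3] at h1
  have hn : (0 : ℝ) ≤ Fintype.card ι := Nat.cast_nonneg _
  have m1 := mul_le_mul_of_nonneg_left a4 hC
  have m2 := mul_le_mul_of_nonneg_left (show 2 * S.H (fun ω => (X ω, Y ω)) - 2 * b ≤
    P.H (fun x => (X x.1.2, Y x.1.1)) - P.H (fun x => Y x.1.1) +
      (P.H (fun x => (Y x.1.2, Y x.1.1)) - P.H fun x => Y x.1.1) by linarith) (mul_nonneg hC hn)
  linarith

omit [Fintype ι] in
theorem Wd.mono {ρ : ι → K} {j j' : ℕ} {x : K} (h : Wd ρ j x) (hj : j ≤ j') : Wd ρ j' x := by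
  obtain ⟨l, hl, rfl⟩ := h
  exact ⟨l, hl.trans hj, rfl⟩

omit [Fintype ι] in
theorem Wd.cons {ρ : ι → K} {j : ℕ} {x : K} (h : Wd ρ j x) (i : ι) : Wd ρ (j + 1) (-ρ i * x) := by
  obtain ⟨l, hl, rfl⟩ := h
  exact ⟨i :: l, by simpa using hl, by simp⟩

/-- The slopes `1, r 0, …, r (k-1)`. -/
def sl {k : ℕ} (r : Fin k → K) : Option (Fin k) → K := fun o => o.elim 1 r

theorem wd_mono {k : ℕ} (r : Fin k → K) (m : Fin k → ℕ) (s : Finset (Fin k)) :
    Wd (sl r) (2 * ∑ i ∈ s, m i) (∏ i ∈ s, r i ^ m i) := by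
  induction s using Finset.induction_on with
  | empty => exact ⟨[], by simp, by simp⟩
  | insert i s hi ih =>
    rw [Finset.sum_insert hi, Finset.prod_insert hi]
    induction m i with
    | zero => simpa using ih
    | succ n ihn =>
      have h := (ihn.cons (some i)).cons none
      rw [show 2 * (n + 1 + ∑ i ∈ s, m i) = 2 * (n + ∑ i ∈ s, m i) + 1 + 1 by ring]
      rwa [show -sl r none * (-sl r (some i) * (r i ^ n * ∏ i ∈ s, r i ^ m i)) =
        r i ^ (n + 1) * ∏ i ∈ s, r i ^ m i by simp only [sl, Option.elim]; ring] at h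

theorem poly_multiset {k D : ℕ} (r : Fin k → K) (P : MvPolynomial (Fin k) ℤ)
    (hd : P.totalDegree ≤ D) (hc : ∀ m, |P.coeff m| ≤ 2 ^ D) :
    ∃ U : Multiset K, U.sum = -MvPolynomial.aeval r P ∧ (∀ x ∈ U, Wd (sl r) (2 * D + 1) x) ∧
      Multiset.card U < 2 ^ ((k + 1) * D + 1) := by
  have hdeg : ∀ m ∈ P.support, ∑ i, m i ≤ D := fun m hm => by
    have := MvPolynomial.le_totalDegree hm
    rw [Finsupp.sum_fintype _ _ fun _ => rfl] at this
    exact this.trans hd
  refine ⟨∑ m ∈ P.support, Multiset.replicate (P.coeff m).natAbs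
    (if 0 ≤ P.coeff m then -∏ i, r i ^ m i else ∏ i, r i ^ m i), ?_, fun x hx => ?_, ?_⟩
  · rw [MvPolynomial.aeval_def, MvPolynomial.eval₂_eq', ← Finset.sum_neg_distrib,
      Multiset.sum_sum]
    refine Finset.sum_congr rfl fun m _ => ?_
    rw [Multiset.sum_replicate, nsmul_eq_mul, Nat.cast_natAbs]
    split_ifs with h
    · rw [abs_of_nonneg h]; simp
    · rw [abs_of_neg (not_le.1 h)]; simp
  · obtain ⟨m, hm, hx⟩ := Multiset.mem_sum.1 hx
    have h1 := (wd_mono r m Finset.univ).mono (Nat.mul_le_mul_left 2 (hdeg m hm))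
    rw [Multiset.eq_of_mem_replicate hx]
    split_ifs
    · simpa [sl] using h1.cons none
    · exact h1.mono (Nat.le_succ _)
  · have h1 : P.support.card ≤ (D + 1) ^ k := by
      have := Finset.card_le_card_of_injOn (s := P.support)
        (t := Fintype.piFinset fun _ : Fin k => Finset.range (D + 1)) (fun m => ⇑m)
        (fun m hm => by
          simp only [Finset.mem_coe, Fintype.mem_piFinset, Finset.mem_range]
          exact fun i => Nat.lt_succ_of_le
            ((Finset.single_le_sum (fun _ _ => Nat.zero_le _) (Finset.mem_univ i)).trans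
              (hdeg m hm))) fun _ _ _ _ h => DFunLike.coe_injective h
      simpa using this
    have h2 : (D + 1) ^ k ≤ (2 ^ D) ^ k := Nat.pow_le_pow_left Nat.lt_two_pow_self k
    rw [Multiset.card_sum]
    simp only [Multiset.card_replicate]
    have h3 := Finset.sum_le_card_nsmul P.support (fun m => (P.coeff m).natAbs) (2 ^ D)
      fun m _ => by have := hc m; rw [← Int.natCast_natAbs] at this; exact_mod_cast this
    rw [smul_eq_mul] at h3
    calc _ ≤ (2 ^ D) ^ k * 2 ^ D := h3.trans (Nat.mul_le_mul_right _ (h1.trans h2))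
      _ = 2 ^ ((k + 1) * D) := by ring
      _ < _ := Nat.pow_lt_pow_right (by norm_num) (Nat.lt_succ_self _)

/-- The uniform measure on a nonempty finite set. -/
noncomputable def unif {α : Type} (G : Finset α) (h : G.Nonempty) : Sp where
  Ω := G
  fin := inferInstance
  p _ := 1 / G.card
  pos _ := by have := h.card_pos; positivity
  tot := by
    have : (G.card : ℝ) ≠ 0 := by have := h.card_pos; positivity
    simp only [Finset.sum_const, Finset.card_univ, Fintype.card_coe, nsmul_eq_mul]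
    field_simp

theorem unif_H {α β : Type} (G : Finset α) (h : G.Nonempty) (X : (unif G h).Ω → β)
    (hX : Function.Injective X) : (unif G h).H X = Real.log G.card := by
  have key : ∀ ω, (unif G h).mass X (X ω) = 1 / G.card := by
    intro ω
    unfold Sp.mass Sp.E
    rw [Finset.sum_eq_single ω]
    · exact (congrArg (_ * ·) (ind_pos rfl)).trans (mul_one _)
    · intro ω' _ hne; simp only; rw [ind_neg fun hh => hne (hX hh), mul_zero]
    · intro hh; exact absurd (Finset.mem_univ ω) hh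
  unfold Sp.H
  simp only [key]
  rw [Sp.E_const, one_div, Real.log_inv, neg_neg]

theorem upper {k D : ℕ} (hD : 1 ≤ D) {r : Fin k → K} (hr : ∀ i, r i ≠ 0) {s : K}
    {P Q : MvPolynomial (Fin k) ℤ} (dP : P.totalDegree ≤ D) (dQ : Q.totalDegree ≤ D)
    (cP : ∀ m, |P.coeff m| ≤ 2 ^ D) (cQ : ∀ m, |Q.coeff m| ≤ 2 ^ D)
    (hQ : MvPolynomial.aeval r Q ≠ 0) (hs : s = MvPolynomial.aeval r P / MvPolynomial.aeval r Q)
    (G : Finset (V × V)) (N : ℕ) (h0 : (G.image fun g => g.1).card ≤ N)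
    (h1 : (G.image fun g => g.2).card ≤ N) (h2 : (G.image fun g => g.1 + g.2).card ≤ N)
    (h3 : ∀ i, (G.image fun g => g.1 + r i • g.2).card ≤ N) :
    ((G.image fun g => g.1 + s • g.2).card : ℝ) ≤
      (N : ℝ) ^ (2 - 1 / (2100 * ((k : ℝ) + 1) ^ 2 * D)) := by
  rcases G.eq_empty_or_nonempty with rfl | hG
  · simp only [Finset.image_empty, Finset.card_empty, Nat.cast_zero]; positivity
  have hρ : ∀ o, sl r o ≠ 0 := fun o => by cases o <;> simp [sl, hr]
  obtain ⟨M, hM⟩ : ∃ M, M = (2 * D + 1) * Fintype.card (Option (Fin k)) + ((k + 1) * D + 1) + 1 +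
    ((k + 1) * D + 1) + 1 := ⟨_, rfl⟩
  have hM1 : (1 : ℝ) ≤ M := by exact_mod_cast (by omega : 1 ≤ M)
  have hcore : ∀ (S : Sp) (X Y : S.Ω → V), S.H (fun ω => X ω + s • Y ω) ≤
      (S.H X + S.H Y) / 2 + 58 * M * per (sl r) (mk S X) (mk S Y) := by
    intro S X Y
    by_cases hP : MvPolynomial.aeval r P = 0
    · have e1 := e_le_per hρ (mk S X) (mk S Y) none
      have e2 := H_le_add (mk S X) (sl r none • mk S Y)
      have e3 := mul_le_mul_of_nonneg_right hM1 (per_nonneg hρ (mk S X) (mk S Y))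
      have e4 := per_nonneg hρ (mk S X) (mk S Y)
      simp only [hs, hP, zero_div, zero_smul, add_zero]
      rw [mk_H, mk_H] at e1
      rw [mk_H] at e2
      linarith
    obtain ⟨UP, a1, a2, a3⟩ := poly_multiset r P dP cP
    obtain ⟨UQ, b1, b2, b3⟩ := poly_multiset r Q dQ cQ
    refine le_trans (S.H_mono fun ω ω' h => ?_) (core hρ (i0 := none) rfl S X Y hP hQ hM a1 b1 a2 b2 a3 b3)
    refine smul_right_injective V hQ ?_
    simp only [smul_add, smul_smul, hs, mul_div_cancel₀ _ hQ]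
    exact h
  obtain ⟨G', s1, s2, s3⟩ := Finset.exists_subset_injOn_image_eq_of_surjOn
    (f := fun g : V × V => g.1 + s • g.2) (G : Set (V × V)) (G.image fun g => g.1 + s • g.2)
    (by rw [Finset.coe_image]; exact Set.surjOn_image _ _)
  have hG' : G'.Nonempty := by
    rw [← Finset.image_nonempty (f := fun g : V × V => g.1 + s • g.2), s3]; exact hG.image _
  have hN : 1 ≤ N := (hG.image _).card_pos.trans_le h0
  have hN' : (1 : ℝ) ≤ N := by exact_mod_cast hN
  have hl : ∀ π : V × V → V, (G.image π).card ≤ N →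
      (unif G' hG').H (fun ω => π ω.1) ≤ Real.log N := fun π h =>
    ((unif G' hG').H_le_log (fun ω => π ω.1) (G.image π) fun ω =>
      Finset.mem_image_of_mem _ (s1 ω.2)).trans
      (Real.log_le_log (by exact_mod_cast (hG.image _).card_pos) (by exact_mod_cast h))
  have key := path hρ (by linarith) hcore (unif G' hG') (fun ω => ω.1.1) (fun ω => ω.1.2)
    (fun ω ω' h => s2 ω.2 ω'.2 h) (hl (fun g => g.1) h0) (hl (fun g => g.2) h1) fun o => by
      cases o with
      | none => simpa [sl] using hl (fun g => g.1 + g.2) h2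
      | some i => exact hl (fun g => g.1 + r i • g.2) (h3 i)
  rw [unif_H G' hG' (fun ω => (ω.1.1, ω.1.2)) fun ω ω' h => Subtype.ext h] at key
  have hc : (0 : ℝ) < G'.card := by exact_mod_cast hG'.card_pos
  rw [← s3, Finset.card_image_of_injOn s2, Real.le_rpow_iff_log_le hc (by linarith)]
  have hD' : (1 : ℝ) ≤ D := by exact_mod_cast hD
  have hk : (0 : ℝ) ≤ k := Nat.cast_nonneg k
  have hb := Real.log_nonneg hN'
  simp only [Fintype.card_option, Fintype.card_fin] at hM key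
  have hM2 : (M : ℝ) ≤ 9 * (k + 1) * D := by
    rw [hM]; push_cast; nlinarith [mul_nonneg hk (sub_nonneg.2 hD')]
  have hL : 4 * (58 * (M : ℝ)) * ((k + 1 : ℕ) : ℝ) + 2 ≤ 2100 * ((k : ℝ) + 1) ^ 2 * D := by
    push_cast
    have := mul_le_mul_of_nonneg_right hM2 (show (0 : ℝ) ≤ k + 1 by linarith)
    nlinarith [mul_nonneg (mul_nonneg hk hk) (sub_nonneg.2 hD'), mul_nonneg hk (sub_nonneg.2 hD')]
  have hL0 : (0 : ℝ) < 4 * (58 * (M : ℝ)) * ((k + 1 : ℕ) : ℝ) + 2 := by positivity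
  have he : 0 ≤ 2 * Real.log N - Real.log G'.card :=
    nonneg_of_mul_nonneg_right (hb.trans key) hL0
  have h5 := key.trans (mul_le_mul_of_nonneg_right hL he)
  rw [← div_le_iff₀' (hL0.trans_le hL)] at h5
  rw [sub_mul, one_div, inv_mul_eq_div]
  linarith

end Pool.Agent.MP_4b405e_nt.H60
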